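import Pool.Agent.Y292.KS.Stm

set_option autoImplicit false

/-!
# A compact set with unit segments in all directions of `D` and in no direction of `N`
-/

namespace Pool.Agent.Y292.KS

open Set Metric

section
variable {n : ℕ}

/-- The linear map contracting the complement of `u` by `η`, and multiplying by two. -/
noncomputable def squeeze (u : EuclideanSpace ℝ (Fin n)) (η : ℝ) :
    EuclideanSpace ℝ (Fin n) →L[ℝ] EuclideanSpace ℝ (Fin n) :=
  (2 * η) • ContinuousLinearMap.id ℝ _ +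
    (2 * (1 - η)) • (innerSL ℝ u).smulRight u

theorem squeeze_apply (u : EuclideanSpace ℝ (Fin n)) (η : ℝ) (x : EuclideanSpace ℝ (Fin n)) :
    squeeze u η x = (2 * inner ℝ u x) • u + (2 * η) • (x - (inner ℝ u x : ℝ) • u) := by
  simp only [squeeze, _root_.add_apply, _root_.smul_apply,
    ContinuousLinearMap.id_apply, ContinuousLinearMap.smulRight_apply, innerSL_apply_apply]
  module

theorem inner_squeeze (u : EuclideanSpace ℝ (Fin n)) (hu : ‖u‖ = 1) (η : ℝ)
    (x : EuclideanSpace ℝ (Fin n)) : inner ℝ u (squeeze u η x) = 2 * inner ℝ u x := by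
  have huu : inner ℝ u u = (1 : ℝ) := by rw [real_inner_self_eq_norm_sq, hu]; norm_num
  rw [squeeze_apply, inner_add_right, inner_smul_right, inner_smul_right, inner_sub_right,
    inner_smul_right, huu]
  ring

/-- FACT 1 -/
theorem squeeze_seg (K : Set (EuclideanSpace ℝ (Fin n))) (hK : IsKak K)
    (u e : EuclideanSpace ℝ (Fin n)) (η : ℝ) (hu : ‖u‖ = 1) (he : ‖e‖ = 1) (hη : 0 < η)
    (hη1 : η ≤ 1) (hue : ‖e - u‖ ≤ η / 4) :
    ∃ x, ∀ t ∈ Icc (0 : ℝ) 1, x + t • e ∈ squeeze u η '' K := by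
  have huu : inner ℝ u u = (1 : ℝ) := by rw [real_inner_self_eq_norm_sq, hu]; norm_num
  set c : ℝ := inner ℝ u e with hc
  set w : EuclideanSpace ℝ (Fin n) := e - c • u with hw
  have huw : inner ℝ u w = (0 : ℝ) := by
    rw [hw, inner_sub_right, inner_smul_right, huu, ← hc]; ring
  have hcle : |c| ≤ 1 := by
    have := abs_real_inner_le_norm u e
    rwa [hu, he, one_mul] at this
  have hcge : 3 / 4 ≤ c := by
    have h1 : c = 1 + inner ℝ u (e - u) := by rw [inner_sub_right, huu, ← hc]; ring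
    have h2 := abs_real_inner_le_norm u (e - u)
    rw [hu, one_mul] at h2
    have h3 := (abs_le.1 h2).1
    linarith
  have hwn : ‖w‖ ≤ η / 4 := by
    have h1 : ‖w‖ ^ 2 ≤ ‖e - u‖ ^ 2 := by
      have h2 : e - u = w + (c - 1) • u := by rw [hw]; module
      rw [h2, norm_add_sq_real, inner_smul_right, real_inner_comm, huw]
      have : 0 ≤ ‖(c - 1) • u‖ ^ 2 := by positivity
      linarith
    exact (le_of_sq_le_sq h1 (norm_nonneg _)).trans hue
  set g : EuclideanSpace ℝ (Fin n) := c • u + (1 / η) • w with hg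
  have hug : inner ℝ u g = c := by
    rw [hg, inner_add_right, inner_smul_right, inner_smul_right, huu, huw]; ring
  have hgn : ‖g‖ ≤ 2 := by
    have h1 : ‖c • u‖ ≤ 1 := by rw [norm_smul, hu, mul_one]; exact hcle
    have h2 : ‖(1 / η) • w‖ ≤ 1 / 4 := by
      rw [norm_smul, Real.norm_eq_abs, abs_of_pos (by positivity), one_div, inv_mul_eq_div,
        div_le_iff₀ hη]
      linarith
    linarith [norm_add_le (c • u) ((1 / η) • w)]
  have hg0 : 0 < ‖g‖ := by
    rw [norm_pos_iff]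
    intro h
    rw [h, inner_zero_right] at hug
    linarith
  obtain ⟨x, hx⟩ := hK (‖g‖⁻¹ • g) (by
    rw [norm_smul, norm_inv, norm_norm, inv_mul_cancel₀ hg0.ne'])
  refine ⟨squeeze u η x, fun t ht => ?_⟩
  have hs : t * (‖g‖ / 2) ∈ Icc (0 : ℝ) 1 := by
    refine ⟨mul_nonneg ht.1 (by positivity), ?_⟩
    nlinarith [ht.1, ht.2]
  refine ⟨_, hx _ hs, ?_⟩
  rw [map_add]
  congr 1
  have h1 : squeeze u η g = (2 : ℝ) • e := by
    rw [squeeze_apply, hug]
    have h2 : g - c • u = (1 / η) • w := by rw [hg]; abel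
    rw [h2, smul_smul]
    have h3 : 2 * η * (1 / η) = 2 := by field_simp
    rw [h3, hw]
    module
  rw [smul_smul, map_smul, h1, smul_smul]
  congr 1
  field_simp

/-- FACT 2 -/
theorem squeeze_thin (K : Set (EuclideanSpace ℝ (Fin n))) (R : ℝ) (hR : ∀ x ∈ K, ‖x‖ ≤ R)
    (u e y : EuclideanSpace ℝ (Fin n)) (η : ℝ) (hu : ‖u‖ = 1) (hη : 0 < η)
    (h : ∀ t ∈ Icc (0 : ℝ) 1, y + t • e ∈ squeeze u η '' K) :
    ‖e - (inner ℝ u e : ℝ) • u‖ ≤ 4 * η * R := by
  have huu : inner ℝ u u = (1 : ℝ) := by rw [real_inner_self_eq_norm_sq, hu]; norm_num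
  have key : ∀ z ∈ squeeze u η '' K, ‖z - (inner ℝ u z : ℝ) • u‖ ≤ 2 * η * R := by
    rintro _ ⟨x, hx, rfl⟩
    rw [inner_squeeze u hu]
    have h1 : squeeze u η x - (2 * inner ℝ u x) • u = (2 * η) • (x - (inner ℝ u x : ℝ) • u) := by
      rw [squeeze_apply]; abel
    rw [h1, norm_smul, Real.norm_eq_abs, abs_of_pos (by positivity)]
    refine mul_le_mul_of_nonneg_left ?_ (by positivity)
    have h2 : ‖x - (inner ℝ u x : ℝ) • u‖ ^ 2 ≤ ‖x‖ ^ 2 := by
      rw [norm_sub_sq_real, inner_smul_right, norm_smul, hu, real_inner_comm, mul_one,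
        Real.norm_eq_abs, sq_abs]
      nlinarith [sq_nonneg (inner ℝ x u : ℝ)]
    exact (le_of_sq_le_sq h2 (norm_nonneg _)).trans (hR x hx)
  have h0 := key _ (h 0 ⟨le_rfl, zero_le_one⟩)
  have h1 := key _ (h 1 ⟨zero_le_one, le_rfl⟩)
  have h2 : e - (inner ℝ u e : ℝ) • u =
      ((y + (1 : ℝ) • e) - (inner ℝ u (y + (1 : ℝ) • e) : ℝ) • u) -
        ((y + (0 : ℝ) • e) - (inner ℝ u (y + (0 : ℝ) • e) : ℝ) • u) := by
    rw [inner_add_right, inner_add_right, inner_smul_right, inner_smul_right]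
    module
  rw [h2]
  refine (norm_sub_le _ _).trans ?_
  linarith

theorem squeeze_norm (u : EuclideanSpace ℝ (Fin n)) (hu : ‖u‖ = 1) (η : ℝ) (hη : 0 < η)
    (hη1 : η ≤ 1) (x : EuclideanSpace ℝ (Fin n)) : ‖squeeze u η x‖ ≤ 4 * ‖x‖ := by
  have h1 : squeeze u η x = (2 * η) • x + (2 * (1 - η) * inner ℝ u x) • u := by
    rw [squeeze_apply]; module
  rw [h1]
  refine (norm_add_le _ _).trans ?_
  rw [norm_smul, norm_smul, hu, mul_one, Real.norm_eq_abs, Real.norm_eq_abs,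
    abs_of_pos (by positivity : (0 : ℝ) < 2 * η), abs_mul,
    abs_of_nonneg (by linarith : (0 : ℝ) ≤ 2 * (1 - η))]
  have h2 := abs_real_inner_le_norm u x
  rw [hu, one_mul] at h2
  nlinarith [norm_nonneg x, abs_nonneg (inner ℝ u x : ℝ)]

end

/-- A connected set in a finite union of pairwise disjoint closed sets lies in one of them. -/
theorem conn_finite {Z ι : Type} [TopologicalSpace Z] (s : Finset ι) (C : ι → Set Z)
    (hC : ∀ i ∈ s, IsClosed (C i)) (hd : ∀ i ∈ s, ∀ j ∈ s, i ≠ j → Disjoint (C i) (C j))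
    (S : Set Z) (hS : IsPreconnected S) (hne : S.Nonempty) (hsub : S ⊆ ⋃ i ∈ s, C i) :
    ∃ i ∈ s, S ⊆ C i := by
  classical
  obtain ⟨x, hx⟩ := hne
  obtain ⟨i, hi, hxi⟩ := mem_iUnion₂.1 (hsub hx)
  refine ⟨i, hi, ?_⟩
  have hcl : IsClosed (⋃ j ∈ s.erase i, C j) :=
    isClosed_biUnion_finset fun j hj => hC j (Finset.mem_of_mem_erase hj)
  have hcov : S ⊆ C i ∪ ⋃ j ∈ s.erase i, C j := by
    intro y hy
    obtain ⟨j, hj, hyj⟩ := mem_iUnion₂.1 (hsub hy)
    by_cases hji : j = i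
    · exact Or.inl (hji ▸ hyj)
    · exact Or.inr (mem_iUnion₂.2 ⟨j, Finset.mem_erase.2 ⟨hji, hj⟩, hyj⟩)
  have hdis : Disjoint (C i) (⋃ j ∈ s.erase i, C j) := by
    rw [disjoint_iUnion₂_right]
    intro j hj
    obtain ⟨h1, h2⟩ := Finset.mem_erase.1 hj
    exact hd i hi j h2 (Ne.symm h1)
  rcases isPreconnected_iff_subset_of_disjoint_closed.1 hS _ _ (hC i hi) hcl hcov
    (by rw [hdis.inter_eq, inter_empty]) with h | h
  · exact h
  · exact absurd (h hx) (fun h' => disjoint_left.1 hdis hxi h')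

theorem t_BASE : S_BASE := by
  classical
  intro n K hK hKak D N hD hN hD1 hN1 hdis
  by_cases hDne : D.Nonempty
  swap
  · refine ⟨∅, isCompact_empty, by simp, ?_, ?_⟩
    · intro e he
      exact absurd ⟨e, he⟩ hDne
    · intro e _ x h
      exact h 0 ⟨le_rfl, zero_le_one⟩
  obtain ⟨u0, hu0D⟩ := hDne
  have hu0 := hD1 u0 hu0D
  obtain ⟨R0, hR0⟩ := hK.isBounded.exists_norm_le
  set R : ℝ := max R0 1 with hR
  have hR1 : 1 ≤ R := le_max_right _ _
  have hRK : ∀ x ∈ K, ‖x‖ ≤ R := fun x hx => (hR0 x hx).trans (le_max_left _ _)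
  -- the constant
  obtain ⟨c0, hc0, hc0'⟩ : ∃ c0 : ℝ, 0 < c0 ∧ ∀ e ∈ N, ∀ u ∈ D,
      c0 ≤ ‖e - (inner ℝ u e : ℝ) • u‖ := by
    by_cases hNne : N.Nonempty
    · have hND : (N ×ˢ D).Nonempty := hNne.prod ⟨u0, hu0D⟩
      have hcont : Continuous fun p : EuclideanSpace ℝ (Fin n) × EuclideanSpace ℝ (Fin n) =>
          ‖p.1 - (inner ℝ p.2 p.1 : ℝ) • p.2‖ := by fun_prop
      obtain ⟨q0, hq0, hmin⟩ := (hN.prod hD).exists_isMinOn hND hcont.continuousOn
      obtain ⟨e0, v0⟩ := q0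
      have he0 : e0 ∈ N := hq0.1
      have hv0 : v0 ∈ D := hq0.2
      refine ⟨‖e0 - (inner ℝ v0 e0 : ℝ) • v0‖, ?_, ?_⟩
      swap
      · intro e he u hu
        have := isMinOn_iff.1 hmin (e, u) (mk_mem_prod he hu)
        exact this
      rw [norm_pos_iff]
      intro h
      have h1 : e0 = (inner ℝ v0 e0 : ℝ) • v0 := sub_eq_zero.1 h
      have h2 : |(inner ℝ v0 e0 : ℝ)| = 1 := by
        have := hN1 e0 he0
        rw [h1, norm_smul, hD1 v0 hv0, mul_one, Real.norm_eq_abs] at this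
        exact this
      rcases (abs_eq zero_le_one).1 h2 with h3 | h3
      · rw [h3, one_smul] at h1
        exact (hdis e0 he0).1 (h1 ▸ hv0)
      · rw [h3] at h1
        refine (hdis e0 he0).2 ?_
        rw [h1]
        simpa using hv0
    · exact ⟨1, one_pos, fun e he => absurd ⟨e, he⟩ hNne⟩
  set η : ℝ := min 1 (c0 / (8 * R)) with hη
  have hη0 : 0 < η := lt_min one_pos (by positivity)
  have hη1 : η ≤ 1 := min_le_left _ _
  have hηc : 4 * η * R < c0 := by
    have h1 : η ≤ c0 / (8 * R) := min_le_right _ _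
    have h2 : η * (8 * R) ≤ c0 := by rwa [le_div_iff₀ (by positivity)] at h1
    nlinarith
  -- finite cover
  obtain ⟨s, hsD, hscov⟩ := hD.elim_nhds_subcover (fun u => ball u (η / 4))
    (fun u _ => ball_mem_nhds u (by positivity))
  -- enumeration
  let idx : EuclideanSpace ℝ (Fin n) → ℕ := fun u => if h : u ∈ s then (s.equivFin ⟨u, h⟩ : ℕ) else 0
  have hidx : ∀ u ∈ s, ∀ v ∈ s, u ≠ v → idx u ≠ idx v := by
    intro u hu v hv huv h
    simp only [idx, hu, hv, dif_pos] at h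
    have := s.equivFin.injective (Fin.ext h)
    exact huv (congrArg Subtype.val this)
  let C : EuclideanSpace ℝ (Fin n) → Set (EuclideanSpace ℝ (Fin n)) := fun u =>
    (fun x => x + (idx u * (9 * R) : ℝ) • u0) '' (squeeze u η '' K)
  have hCc : ∀ u, IsCompact (C u) := fun u =>
    (hK.image (squeeze u η).continuous).image (by fun_prop)
  have hiso : ∀ w : EuclideanSpace ℝ (Fin n), Isometry (fun x : EuclideanSpace ℝ (Fin n) => x + w) :=
    fun w => Isometry.of_dist_eq fun s t => by rw [dist_add_right]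
  have hCd : ∀ u, dimH (C u) ≤ dimH K := by
    intro u
    rw [(hiso _).dimH_image]
    exact (squeeze u η).lipschitz.dimH_image_le K
  have hCdis : ∀ u ∈ s, ∀ v ∈ s, u ≠ v → Disjoint (C u) (C v) := by
    intro u hu v hv huv
    rw [disjoint_left]
    rintro _ ⟨_, ⟨x, hx, rfl⟩, rfl⟩ ⟨_, ⟨y, hy, rfl⟩, hxy⟩
    have h1 := (squeeze_norm u (hD1 u (hsD u hu)) η hη0 hη1 x).trans
      (mul_le_mul_of_nonneg_left (hRK x hx) (by norm_num))
    have h2 := (squeeze_norm v (hD1 v (hsD v hv)) η hη0 hη1 y).trans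
      (mul_le_mul_of_nonneg_left (hRK y hy) (by norm_num))
    have h3 : (((idx u : ℝ) - (idx v : ℝ)) * (9 * R)) • u0 = squeeze v η y - squeeze u η x := by
      simp only at hxy
      have : squeeze v η y - squeeze u η x =
          (idx u * (9 * R) : ℝ) • u0 - (idx v * (9 * R) : ℝ) • u0 := by
        rw [sub_eq_sub_iff_add_eq_add, hxy]
        abel
      rw [this]; module
    have h4 : |(idx u : ℝ) - (idx v : ℝ)| * (9 * R) ≤ 8 * R := by
      have := congrArg norm h3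
      rw [norm_smul, hu0, mul_one, Real.norm_eq_abs, abs_mul,
        abs_of_pos (by positivity : (0 : ℝ) < 9 * R)] at this
      rw [this]
      refine (norm_sub_le _ _).trans ?_
      linarith
    have h5 : (1 : ℝ) ≤ |(idx u : ℝ) - (idx v : ℝ)| := by
      have h6 : (idx u : ℤ) - (idx v : ℤ) ≠ 0 := by
        intro h
        exact hidx u hu v hv huv (by omega)
      have h7 := Int.one_le_abs h6
      exact_mod_cast h7
    nlinarith
  refine ⟨⋃ u ∈ s, C u, s.isCompact_biUnion fun u _ => hCc u, ?_, ?_, ?_⟩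
  · change dimH (⋃ u ∈ (s : Set (EuclideanSpace ℝ (Fin n))), C u) ≤ dimH K
    rw [dimH_bUnion s.countable_toSet]
    exact iSup₂_le fun u _ => hCd u
  · intro e he
    obtain ⟨u, hu, heu⟩ := mem_iUnion₂.1 (hscov he)
    have h1 : ‖e - u‖ ≤ η / 4 := by rw [← dist_eq_norm]; exact (mem_ball.1 heu).le
    obtain ⟨x, hx⟩ := squeeze_seg K hKak u e η (hD1 u (hsD u hu)) (hD1 e he) hη0 hη1 h1
    refine ⟨x + (idx u * (9 * R) : ℝ) • u0, fun t ht => ?_⟩
    refine mem_iUnion₂.2 ⟨u, hu, ⟨x + t • e, hx t ht, ?_⟩⟩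
    simp only
    abel
  · intro e he x h
    have hconn : IsPreconnected ((fun t : ℝ => x + t • e) '' Icc (0 : ℝ) 1) :=
      isPreconnected_Icc.image _ (by fun_prop)
    obtain ⟨u, hu, hsub⟩ := conn_finite s C (fun u _ => (hCc u).isClosed) hCdis _ hconn
      ⟨x + (0 : ℝ) • e, ⟨0, ⟨le_rfl, zero_le_one⟩, rfl⟩⟩
      (by rintro _ ⟨t, ht, rfl⟩; exact h t ht)
    have h1 : ∀ t ∈ Icc (0 : ℝ) 1, (x - (idx u * (9 * R) : ℝ) • u0) + t • e ∈ squeeze u η '' K := by
      intro t ht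
      obtain ⟨y, hy, hyx⟩ := hsub ⟨t, ht, rfl⟩
      simp only at hyx
      have : (x - (idx u * (9 * R) : ℝ) • u0) + t • e = y := by
        rw [sub_add_eq_add_sub, ← hyx]; abel
      rw [this]; exact hy
    have h2 := squeeze_thin K R hRK u e _ η (hD1 u (hsD u hu)) hη0 h1
    have h3 := hc0' e he u (hsD u hu)
    linarith

end Pool.Agent.Y292.KS
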