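import Pool.Agent.Y292.KS.Defs

set_option autoImplicit false

/-!
# Kakeya sets which are as far from sticky as possible: thin copies (statement)
-/

namespace Pool.Agent.Y292.KS

open Set Metric

/-- One thin copy of `K`: position `z.1`, slope `z.2`, thickness `η`. -/
def S_PIECE : Prop := ∀ (m : ℕ) (T κ η : ℝ) (K : Set (F m)) (z : V m × V m), 1 ≤ T → 0 < κ → κ ≤ 1 →
  0 < η → IsCompact K → K ⊆ Tube (κ * T) (κ * T) → (∀ v : V m, ‖v‖ ≤ 1 → ∃ p, SegIn κ v p K) →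
  ∃ P : Set (F m), IsCompact P ∧ dimH P ≤ dimH K ∧
    (∀ q ∈ P, |q.1| ≤ T ∧ ‖q.2 - z.1 - q.1 • z.2‖ ≤ T * η) ∧
    (∀ v : V m, ‖v - z.2‖ ≤ η → ∃ p, SegIn 1 v p P) ∧
    (∀ (v : V m) (p : F m), SegIn κ v p P → κ * ‖v - z.2‖ ≤ 2 * T * η)

end Pool.Agent.Y292.KS
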