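import Pool.Agent.Y292.KS.Base
import Pool.Agent.Y292.KS.Stm2

set_option autoImplicit false

/-!
# The bundle of thin copies of one cell
-/

namespace Pool.Agent.Y292.KS

open Set Metric

theorem net_exists {m : ℕ} (D : Set (V m)) (hD : IsCompact D) (η : ℝ) (hη : 0 < η) :
    ∃ U : Finset (V m), (∀ u ∈ U, u ∈ D) ∧ (∀ u ∈ U, ∀ w ∈ U, u ≠ w → η ≤ ‖u - w‖) ∧
      ∀ v ∈ D, ∃ u ∈ U, ‖v - u‖ ≤ η := by
  classical
  obtain ⟨G, hGD, hG⟩ := hD.elim_nhds_subcover (fun u => ball u (η / 2))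
    (fun u _ => ball_mem_nhds u (by positivity))
  let Pr : ℕ → Prop := fun n => ∃ U : Finset (V m), (∀ u ∈ U, u ∈ D) ∧
    (∀ u ∈ U, ∀ w ∈ U, u ≠ w → η ≤ ‖u - w‖) ∧ U.card = n
  have hbound : ∀ n, Pr n → n ≤ G.card := by
    rintro n ⟨U, hUD, hUs, rfl⟩
    by_contra hlt
    push Not at hlt
    have hch : ∀ u ∈ U, ∃ g ∈ G, u ∈ ball g (η / 2) := fun u hu => by
      simpa using hG (hUD u hu)
    choose! g hgG hg using hch
    obtain ⟨x, hx, y, hy, hxy, hgxy⟩ :=
      Finset.exists_ne_map_eq_of_card_lt_of_maps_to hlt (fun u hu => hgG u hu)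
    have h1 := mem_ball.1 (hg x hx)
    have h2 := mem_ball.1 (hg y hy)
    rw [← hgxy] at h2
    have h3 := hUs x hx y hy hxy
    rw [← dist_eq_norm] at h3
    linarith [dist_triangle_right x y (g x)]
  have h0 : Pr 0 := ⟨∅, by simp, by simp, rfl⟩
  have hmax : Pr (Nat.findGreatest Pr G.card) := Nat.findGreatest_spec (Nat.zero_le _) h0
  obtain ⟨U, hUD, hUs, hUc⟩ := hmax
  refine ⟨U, hUD, hUs, fun v hv => ?_⟩
  by_contra hcon
  push Not at hcon
  have hvU : v ∉ U := by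
    intro h
    have := hcon v h
    rw [sub_self, norm_zero] at this
    linarith
  have hP : Pr (U.card + 1) := by
    refine ⟨insert v U, ?_, ?_, Finset.card_insert_of_notMem hvU⟩
    · intro u hu
      rcases Finset.mem_insert.1 hu with h | h
      · exact h ▸ hv
      · exact hUD u h
    · intro u hu w hw huw
      rcases Finset.mem_insert.1 hu with h | h <;> rcases Finset.mem_insert.1 hw with h' | h'
      · exact absurd (h.trans h'.symm) huw
      · rw [h]; exact (hcon w h').le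
      · rw [h', norm_sub_rev]; exact (hcon u h).le
      · exact hUs u h w h' huw
  have h1 := Nat.le_findGreatest (hbound _ hP) hP
  omega

theorem tau_cont {m : ℕ} (z : V m × V m) : Continuous (tau z : F m → F m) := by
  unfold tau
  fun_prop

theorem tube_compact {m : ℕ} (T β : ℝ) : IsCompact (Tube T β : Set (F m)) := by
  have : (Tube T β : Set (F m)) = Icc (-T) T ×ˢ closedBall (0 : V m) β := by
    ext q
    simp [Tube, abs_le]
  rw [this]
  exact isCompact_Icc.prod (isCompact_closedBall _ _)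

theorem t_BUN (h : S_PIECE) : S_BUN := by
  classical
  intro m hm T κ K hT hκ hκ1 hKc hKt hKs β β' A hβ' hβ64 hβ1 hbox hsep hsepv
  have hT0 : 0 < T := by linarith
  have hβ0 : 0 < β := by linarith
  set R : ℝ := rho T β with hR
  set R' : ℝ := rho T β' with hR'
  have hTR : T * R = β / 32 := by rw [hR]; unfold rho; field_simp
  have hTR' : T * R' = β' / 32 := by rw [hR']; unfold rho; field_simp
  have hR0 : 0 < R := by rw [hR]; unfold rho; positivity
  have hR'0 : 0 < R' := by rw [hR']; unfold rho; positivity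
  have hR'1 : R' ≤ β' / 32 := by nlinarith
  set η : ℝ := min R (κ * R' / (12 * T)) with hη
  have hη0 : 0 < η := lt_min hR0 (by positivity)
  have hηR : η ≤ R := min_le_left _ _
  have hηT : 2 * T * η < κ * R' / 3 := by
    have h1 : η ≤ κ * R' / (12 * T) := min_le_right _ _
    rw [le_div_iff₀ (by positivity)] at h1
    have h2 : 0 < κ * R' := by positivity
    nlinarith
  set D : Set (V m) := {v | ‖v‖ ≤ R ∧ ∀ a ∈ A, R' ≤ ‖v - a.2‖} with hD
  have hDc : IsCompact D := by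
    refine (isCompact_closedBall (0 : V m) R).of_isClosed_subset ?_ ?_
    · have h1 : D = {v | ‖v‖ ≤ R} ∩ ⋂ a ∈ A, {v | R' ≤ ‖v - a.2‖} := by
        ext v; simp [hD]
      rw [h1]
      refine (isClosed_le continuous_norm continuous_const).inter
        (isClosed_biInter fun a _ => isClosed_le continuous_const (by fun_prop))
    · intro v hv
      simpa using hv.1
  obtain ⟨U, hUD, hUs, hUcov⟩ := net_exists D hDc η hη0
  let i0 : Fin m := ⟨0, by omega⟩
  let e0 : V m := Pi.single i0 1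
  have he0 : ‖e0‖ ≤ 1 := by
    rw [pi_norm_le_iff_of_nonneg zero_le_one]
    intro i
    by_cases hi : i = i0
    · rw [hi]; simp [e0]
    · simp [e0, hi]
  have he00 : e0 i0 = 1 := by simp [e0]
  let zc : V m → V m × V m := fun u => ((8 * T) • u - (16 * T * R) • e0, u)
  have hpc : ∀ u : V m, ∃ P : Set (F m), IsCompact P ∧ dimH P ≤ dimH K ∧
    (∀ q ∈ P, |q.1| ≤ T ∧ ‖q.2 - (zc u).1 - q.1 • (zc u).2‖ ≤ T * η) ∧
    (∀ v : V m, ‖v - (zc u).2‖ ≤ η → ∃ p, SegIn 1 v p P) ∧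
    (∀ (v : V m) (p : F m), SegIn κ v p P → κ * ‖v - (zc u).2‖ ≤ 2 * T * η) := fun u =>
    h m T κ η K (zc u) hT hκ hκ1 hη0 hKc hKt hKs
  choose P hPc hPd hPb hPs hPt using hpc
  -- the coordinate `i0` on the thin copies
  have hPneg : ∀ u ∈ U, ∀ q ∈ P u, q.2 i0 ≤ -(6 * (T * R)) := by
    intro u hu q hq
    obtain ⟨h1, h2⟩ := hPb u q hq
    have h3 := (norm_le_pi_norm (q.2 - (zc u).1 - q.1 • (zc u).2) i0).trans h2
    have h4 : (q.2 - (zc u).1 - q.1 • (zc u).2) i0 =
        q.2 i0 - (8 * T * u i0 - 16 * T * R * 1) - q.1 * u i0 := by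
      simp [zc, he00]
    rw [h4, Real.norm_eq_abs] at h3
    have h5 := (abs_le.1 h3).2
    have h6 : |u i0| ≤ R := (norm_le_pi_norm u i0).trans (hUD u hu).1
    have h7 : T * u i0 ≤ T * R := mul_le_mul_of_nonneg_left ((le_abs_self _).trans h6) hT0.le
    have h8 : q.1 * u i0 ≤ T * R := by
      refine (le_abs_self _).trans ?_
      rw [abs_mul]
      exact mul_le_mul h1 h6 (abs_nonneg _) hT0.le
    have h9 : T * η ≤ T * R := mul_le_mul_of_nonneg_left hηR hT0.le
    linarith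
  -- the coordinate `i0` on the tubes
  have hTub : ∀ a ∈ A, ∀ q ∈ (tau a '' Tube T β' : Set (F m)), -(T * R) ≤ q.2 i0 := by
    rintro a ha _ ⟨q, ⟨h1, h2⟩, rfl⟩
    obtain ⟨h3, h4⟩ := hbox a ha
    have h5 : |q.2 i0| ≤ β' := (norm_le_pi_norm q.2 i0).trans h2
    have h6 : |a.2 i0| ≤ R / 2 := (norm_le_pi_norm a.2 i0).trans h4
    have h7 : |q.1 * a.2 i0| ≤ T * (R / 2) := by
      rw [abs_mul]; exact mul_le_mul h1 h6 (abs_nonneg _) hT0.le
    have h8 : (tau a q).2 i0 = q.2 i0 + a.1 i0 + q.1 * a.2 i0 := rfl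
    rw [h8]
    have := (abs_le.1 h5).1
    have := (abs_le.1 h7).1
    have := (h3 i0).1
    linarith
  have hPT : ∀ u ∈ U, ∀ a ∈ A, Disjoint (P u) (tau a '' Tube T β') := by
    intro u hu a ha
    rw [disjoint_left]
    intro q hq1 hq2
    have h1 := hPneg u hu q hq1
    have h2 := hTub a ha q hq2
    have : 0 < T * R := by positivity
    linarith
  have hPP : ∀ u ∈ U, ∀ w ∈ U, u ≠ w → Disjoint (P u) (P w) := by
    intro u hu w hw huw
    rw [disjoint_left]
    intro q hq1 hq2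
    obtain ⟨h1, h2⟩ := hPb u q hq1
    obtain ⟨-, h3⟩ := hPb w q hq2
    have h4 : (8 * T + q.1) • (u - w) = (q.2 - (zc w).1 - q.1 • (zc w).2) -
        (q.2 - (zc u).1 - q.1 • (zc u).2) := by
      simp only [zc]; module
    have h5 : ‖(8 * T + q.1) • (u - w)‖ ≤ 2 * (T * η) := by
      rw [h4]; refine (norm_sub_le _ _).trans ?_; linarith
    have h6 : 7 * T ≤ 8 * T + q.1 := by linarith [(abs_le.1 h1).1]
    rw [norm_smul, Real.norm_eq_abs, abs_of_nonneg (by linarith)] at h5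
    have h7 : 7 * T * η ≤ (8 * T + q.1) * ‖u - w‖ :=
      mul_le_mul h6 (hUs u hu w hw huw) hη0.le (by linarith)
    have : 0 < T * η := by positivity
    linarith
  have hTT : ∀ a ∈ A, ∀ b ∈ A, a ≠ b →
      Disjoint (tau a '' Tube T β' : Set (F m)) (tau b '' Tube T β') := by
    intro a ha b hb hab
    rw [disjoint_left]
    rintro _ ⟨q, ⟨h1, h2⟩, rfl⟩ ⟨q', ⟨h3, h4⟩, hqq⟩
    have h5 : q'.1 = q.1 := (Prod.ext_iff.1 hqq).1
    have h6 : q'.2 + b.1 + q'.1 • b.2 = q.2 + a.1 + q.1 • a.2 := (Prod.ext_iff.1 hqq).2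
    rw [h5] at h6
    have h7 : a.1 - b.1 + q.1 • (a.2 - b.2) = q'.2 - q.2 := by
      have : q'.2 = q.2 + a.1 + q.1 • a.2 - b.1 - q.1 • b.2 := by rw [← h6]; abel
      rw [this]; module
    have h8 := hsep a ha b hb hab q.1 h1
    rw [h7] at h8
    have := norm_sub_le q'.2 q.2
    linarith
  refine ⟨⋃ u ∈ U, P u, U.isCompact_biUnion fun u _ => hPc u, ?_, ?_, ?_, ?_⟩
  · -- inside the tube
    intro q hq
    obtain ⟨u, hu, hqu⟩ := mem_iUnion₂.1 hq
    obtain ⟨h1, h2⟩ := hPb u q hqu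
    refine ⟨h1, ?_⟩
    have hun := (hUD u hu).1
    have h3 : ‖(zc u).1‖ ≤ 24 * (T * R) := by
      show ‖(8 * T) • u - (16 * T * R) • e0‖ ≤ _
      refine (norm_sub_le _ _).trans ?_
      rw [norm_smul, norm_smul, Real.norm_eq_abs, Real.norm_eq_abs,
        abs_of_pos (by positivity : (0 : ℝ) < 8 * T),
        abs_of_pos (by positivity : (0 : ℝ) < 16 * T * R)]
      have h4 : T * ‖u‖ ≤ T * R := mul_le_mul_of_nonneg_left hun hT0.le
      have h5 : (T * R) * ‖e0‖ ≤ (T * R) * 1 := mul_le_mul_of_nonneg_left he0 (by positivity)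
      nlinarith
    have h4 : ‖q.1 • (zc u).2‖ ≤ T * R := by
      rw [norm_smul, Real.norm_eq_abs]
      exact mul_le_mul h1 hun (norm_nonneg _) hT0.le
    have h5 : q.2 = (q.2 - (zc u).1 - q.1 • (zc u).2) + (zc u).1 + q.1 • (zc u).2 := by abel
    have h6 : ‖q.2‖ ≤ ‖q.2 - (zc u).1 - q.1 • (zc u).2‖ + ‖(zc u).1‖ + ‖q.1 • (zc u).2‖ := by
      calc ‖q.2‖ = ‖(q.2 - (zc u).1 - q.1 • (zc u).2) + (zc u).1 + q.1 • (zc u).2‖ := by rw [← h5]
        _ ≤ _ := norm_add₃_le
    have h7 : T * η ≤ T * R := mul_le_mul_of_nonneg_left hηR hT0.le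
    linarith
  · change dimH (⋃ u ∈ (U : Set (V m)), P u) ≤ dimH K
    rw [dimH_bUnion U.countable_toSet]
    exact iSup₂_le fun u _ => hPd u
  · intro v hv1 hv2
    obtain ⟨u, hu, huv⟩ := hUcov v ⟨hv1, hv2⟩
    obtain ⟨p, hp⟩ := hPs u v huv
    exact ⟨p, fun s hs => mem_iUnion₂.2 ⟨u, hu, hp s hs⟩⟩
  · intro Y v p hY hseg a ha hva
    set C : V m ⊕ (V m × V m) → Set (F m) := Sum.elim P (fun b => tau b '' Tube T β') with hC
    have hCcl : ∀ i ∈ U.disjSum A, IsClosed (C i) := by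
      intro i _
      rcases i with u | b
      · exact (hPc u).isClosed
      · exact ((tube_compact T β').image (tau_cont b)).isClosed
    have hCd : ∀ i ∈ U.disjSum A, ∀ j ∈ U.disjSum A, i ≠ j → Disjoint (C i) (C j) := by
      rintro (u | b) hi (w | c) hj hij
      · exact hPP u (Finset.inl_mem_disjSum.1 hi) w (Finset.inl_mem_disjSum.1 hj)
          (fun h => hij (by rw [h]))
      · exact hPT u (Finset.inl_mem_disjSum.1 hi) c (Finset.inr_mem_disjSum.1 hj)
      · exact (hPT w (Finset.inl_mem_disjSum.1 hj) b (Finset.inr_mem_disjSum.1 hi)).symm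
      · exact hTT b (Finset.inr_mem_disjSum.1 hi) c (Finset.inr_mem_disjSum.1 hj)
          (fun h => hij (by rw [h]))
    have hconn : IsPreconnected ((fun s : ℝ => ((p.1 + s, p.2 + s • v) : F m)) '' Icc (0 : ℝ) κ) :=
      isPreconnected_Icc.image _ (by fun_prop)
    obtain ⟨i, hi, hsub⟩ := conn_finite (U.disjSum A) C hCcl hCd _ hconn
      ⟨_, ⟨0, ⟨le_rfl, hκ.le⟩, rfl⟩⟩ (by
        rintro _ ⟨s, hs, rfl⟩
        rcases hseg s hs with h1 | h1
        · obtain ⟨u, hu, h2⟩ := mem_iUnion₂.1 h1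
          exact mem_iUnion₂.2 ⟨Sum.inl u, Finset.inl_mem_disjSum.2 hu, h2⟩
        · obtain ⟨b, hb, h2⟩ := mem_iUnion₂.1 h1
          exact mem_iUnion₂.2 ⟨Sum.inr b, Finset.inr_mem_disjSum.2 hb, image_mono hY h2⟩)
    rcases i with u | b
    · exfalso
      have hu := Finset.inl_mem_disjSum.1 hi
      have h1 : κ * ‖v - u‖ ≤ 2 * T * η :=
        hPt u v p fun s hs => hsub ⟨s, hs, rfl⟩
      have h2 := (hUD u hu).2 a ha
      have h3 : ‖u - a.2‖ ≤ ‖v - u‖ + ‖v - a.2‖ := by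
        have : u - a.2 = (v - a.2) - (v - u) := by abel
        rw [this]
        linarith [norm_sub_le (v - a.2) (v - u)]
      have h4 : R' / 3 ≤ ‖v - u‖ := by linarith
      have h5 : κ * (R' / 3) ≤ κ * ‖v - u‖ := mul_le_mul_of_nonneg_left h4 hκ.le
      linarith
    · have hb := Finset.inr_mem_disjSum.1 hi
      have hba : b = a := by
        by_contra hne
        have h0 : ∀ s ∈ Icc (0 : ℝ) κ, ‖p.2 + s • v - b.1 - (p.1 + s) • b.2‖ ≤ β' := by
          intro s hs
          obtain ⟨q, ⟨h1, h2⟩, hq⟩ := hsub ⟨s, hs, rfl⟩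
          have h3 : q.1 = p.1 + s := congrArg Prod.fst hq
          have h4 : q.2 + b.1 + q.1 • b.2 = p.2 + s • v := congrArg Prod.snd hq
          rw [← h4, h3]
          have : q.2 + b.1 + (p.1 + s) • b.2 - b.1 - (p.1 + s) • b.2 = q.2 := by abel
          rw [this]; exact h2
        have h1 := h0 0 ⟨le_rfl, hκ.le⟩
        have h2 := h0 κ ⟨hκ.le, le_rfl⟩
        have h3 : κ • (v - b.2) = (p.2 + κ • v - b.1 - (p.1 + κ) • b.2) -
            (p.2 + (0 : ℝ) • v - b.1 - (p.1 + 0) • b.2) := by module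
        have h4 : κ * ‖v - b.2‖ ≤ 2 * β' := by
          have h5 : ‖κ • (v - b.2)‖ ≤ 2 * β' := by
            rw [h3]; refine (norm_sub_le _ _).trans ?_; linarith
          rwa [norm_smul, Real.norm_eq_abs, abs_of_pos hκ] at h5
        have h5 := hsepv a ha b hb (Ne.symm hne)
        have h6 : ‖a.2 - b.2‖ ≤ ‖v - b.2‖ + ‖v - a.2‖ := by
          have : a.2 - b.2 = (v - b.2) - (v - a.2) := by abel
          rw [this]
          exact norm_sub_le _ _
        have h7 : κ * ‖a.2 - b.2‖ ≤ κ * (‖v - b.2‖ + ‖v - a.2‖) :=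
          mul_le_mul_of_nonneg_left h6 hκ.le
        have h8 : κ * ‖v - a.2‖ ≤ 1 * (2 / 3 * R') := mul_le_mul hκ1 hva (norm_nonneg _) zero_le_one
        nlinarith
      subst hba
      intro s hs
      have h1 : ((p.1 + s, p.2 + s • v) : F m) ∈ tau b '' Tube T β' := hsub ⟨s, hs, rfl⟩
      rcases hseg s hs with h2 | h2
      · obtain ⟨u, hu, h3⟩ := mem_iUnion₂.1 h2
        exact absurd h1 (disjoint_left.1 (hPT u hu b hb) h3)
      · obtain ⟨c, hc, h3⟩ := mem_iUnion₂.1 h2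
        by_cases hcb : c = b
        · rw [← hcb]; exact h3
        · exact absurd h1 (disjoint_left.1 (hTT c hc b hb hcb) (image_mono hY h3))

end Pool.Agent.Y292.KS
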