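import Pool.Agent.Y292.KS.Fin

set_option autoImplicit false

/-!
# Lower bound for the packing dimension
-/

namespace Pool.Agent.Y292.KS

open Set Metric

theorem dirE_zero {m : ℕ} (v : V m) : (dirE v) 0 = ‖toE ((1, v) : F m)‖⁻¹ := by
  have h1 : phi m (dirE v) = ‖toE ((1, v) : F m)‖⁻¹ • ((1, v) : F m) := by
    unfold dirE
    rw [map_smul, phi_toE]
  have : (dirE v) 0 = (phi m (dirE v)).1 := rfl
  rw [this, h1]
  simp

theorem dirE_succ {m : ℕ} (v : V m) (i : Fin m) : (dirE v) i.succ = (dirE v) 0 * v i := by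
  have h1 : phi m (dirE v) = ‖toE ((1, v) : F m)‖⁻¹ • ((1, v) : F m) := by
    unfold dirE
    rw [map_smul, phi_toE]
  have : (dirE v) i.succ = (phi m (dirE v)).2 i := rfl
  rw [this, h1, dirE_zero]
  simp

theorem dirE_zero_ge {m : ℕ} (v : V m) (hv : ‖v‖ ≤ 1) : 1 ≤ ((m : ℝ) + 1) * (dirE v) 0 := by
  have hn : ‖toE ((1, v) : F m)‖ ≤ (m : ℝ) + 1 := by
    refine (norm_toE_le _).trans ?_
    have : ‖((1, v) : F m)‖ ≤ 1 := by
      rw [Prod.norm_def]; exact max_le (by simp) hv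
    nlinarith [norm_nonneg ((1, v) : F m), (Nat.cast_nonneg m : (0 : ℝ) ≤ (m : ℝ))]
  have h0 : 0 < ‖toE ((1, v) : F m)‖ := norm_pos_iff.2 (toE_ne v)
  rw [dirE_zero, ← div_eq_mul_inv, le_div_iff₀ h0, one_mul]
  exact hn

/-- The pair (position, slope) is a Lipschitz function of (direction, foot). -/
theorem lip {m : ℕ} (R : ℝ) (hR : 0 ≤ R) (a b : V m × V m) (ha : ‖a.2‖ ≤ 1) (hb : ‖b.2‖ ≤ 1)
    (p q : E m) (hp : ‖p‖ ≤ R) (hpa : ∀ i : Fin m, p i.succ = a.1 i + p 0 * a.2 i)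
    (hqb : ∀ i : Fin m, q i.succ = b.1 i + q 0 * b.2 i) (δ : ℝ)
    (h1 : ‖dirE a.2 - dirE b.2‖ ≤ δ) (h2 : ‖p - q‖ ≤ δ) :
    dist a b ≤ 2 * ((m : ℝ) + 1) * (R + 1) * δ := by
  have hδ : 0 ≤ δ := (norm_nonneg _).trans h1
  have hm : (0 : ℝ) ≤ (m : ℝ) := Nat.cast_nonneg m
  have hv : ∀ i, |a.2 i - b.2 i| ≤ 2 * ((m : ℝ) + 1) * δ := by
    intro i
    have h3 := PiLp.norm_apply_le (dirE a.2 - dirE b.2) i.succ
    have h4 := PiLp.norm_apply_le (dirE a.2 - dirE b.2) 0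
    have hbi : |b.2 i| ≤ 1 := (norm_le_pi_norm b.2 i).trans hb
    have e0 := dirE_zero_ge a.2 ha
    have hs : (dirE a.2 - dirE b.2 : E m) i.succ = dirE a.2 0 * a.2 i - dirE b.2 0 * b.2 i := by
      rw [← dirE_succ, ← dirE_succ]; rfl
    have hs0 : (dirE a.2 - dirE b.2 : E m) 0 = dirE a.2 0 - dirE b.2 0 := rfl
    rw [hs, Real.norm_eq_abs] at h3
    rw [hs0, Real.norm_eq_abs] at h4
    have h5 : |dirE a.2 0 * (a.2 i - b.2 i)| ≤ 2 * δ := by
      have : dirE a.2 0 * (a.2 i - b.2 i) = (dirE a.2 0 * a.2 i - dirE b.2 0 * b.2 i) -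
          (dirE a.2 0 - dirE b.2 0) * b.2 i := by ring
      rw [this]
      refine (abs_sub _ _).trans ?_
      rw [abs_mul]
      have h6 : |dirE a.2 0 - dirE b.2 0| * |b.2 i| ≤ δ * 1 :=
        mul_le_mul (h4.trans h1) hbi (abs_nonneg _) hδ
      linarith [h3.trans h1]
    have he0 : 0 < dirE a.2 0 := by
      by_contra h
      push Not at h
      nlinarith
    rw [abs_mul, abs_of_pos he0] at h5
    calc |a.2 i - b.2 i| = 1 * |a.2 i - b.2 i| := by ring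
      _ ≤ (((m : ℝ) + 1) * dirE a.2 0) * |a.2 i - b.2 i| :=
          mul_le_mul_of_nonneg_right e0 (abs_nonneg _)
      _ = ((m : ℝ) + 1) * (dirE a.2 0 * |a.2 i - b.2 i|) := by ring
      _ ≤ ((m : ℝ) + 1) * (2 * δ) := mul_le_mul_of_nonneg_left h5 (by positivity)
      _ = 2 * ((m : ℝ) + 1) * δ := by ring
  have hx : ∀ i, |a.1 i - b.1 i| ≤ 2 * ((m : ℝ) + 1) * (R + 1) * δ := by
    intro i
    have h3 := (PiLp.norm_apply_le (p - q) i.succ).trans h2
    have h4 := (PiLp.norm_apply_le (p - q) 0).trans h2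
    have hbi : |b.2 i| ≤ 1 := (norm_le_pi_norm b.2 i).trans hb
    have hp0 : |p 0| ≤ R := (PiLp.norm_apply_le p 0).trans hp
    have hs : (p - q : E m) i.succ = p i.succ - q i.succ := rfl
    have hs0 : (p - q : E m) 0 = p 0 - q 0 := rfl
    rw [hs, Real.norm_eq_abs] at h3
    rw [hs0, Real.norm_eq_abs] at h4
    have hE : a.1 i - b.1 i = (p i.succ - q i.succ) - p 0 * (a.2 i - b.2 i) -
        (p 0 - q 0) * b.2 i := by
      rw [hpa, hqb]; ring
    rw [hE]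
    refine (abs_sub _ _).trans ?_
    have h5 := abs_sub (p i.succ - q i.succ) (p 0 * (a.2 i - b.2 i))
    rw [abs_mul] at h5
    rw [abs_mul]
    have h6 : |p 0| * |a.2 i - b.2 i| ≤ R * (2 * ((m : ℝ) + 1) * δ) :=
      mul_le_mul hp0 (hv i) (abs_nonneg _) hR
    have h7 : |p 0 - q 0| * |b.2 i| ≤ δ * 1 := mul_le_mul h4 hbi (abs_nonneg _) hδ
    nlinarith [mul_nonneg hm hδ]
  have hRm : 2 * ((m : ℝ) + 1) * δ ≤ 2 * ((m : ℝ) + 1) * (R + 1) * δ := by
    have : 0 ≤ 2 * ((m : ℝ) + 1) * δ * R := by positivity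
    nlinarith
  have hpos : 0 ≤ 2 * ((m : ℝ) + 1) * (R + 1) * δ := by positivity
  rw [Prod.dist_eq]
  refine max_le ?_ ?_
  · rw [dist_pi_le_iff hpos]
    intro i
    rw [Real.dist_eq]; exact hx i
  · rw [dist_pi_le_iff hpos]
    intro i
    rw [Real.dist_eq]; exact (hv i).trans hRm

theorem t_PACK : S_PACK := by
  intro m X _ _ _ z K hK hz hseg hW L hL s hs hpack
  obtain ⟨P, hP, hbox⟩ := hpack
  obtain ⟨hL1, hL2⟩ := hL
  obtain ⟨R0, hR0⟩ := hK.isBounded.exists_norm_le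
  set R : ℝ := max R0 0 with hRdef
  have hR : 0 ≤ R := le_max_right _ _
  -- lines of the selection with the special directions
  have hline : ∀ d (p : E m), (dirE (z d).2, p) ∈ L →
      (∀ i : Fin m, p i.succ = (z d).1 i + p 0 * (z d).2 i) ∧ ‖p‖ ≤ R := by
    intro d p hp
    obtain ⟨hn, hin, a, ha⟩ := hL1 _ hp
    have h1 : ∀ t ∈ Icc (0 : ℝ) 1, (p + a • dirE (z d).2) + t • dirE (z d).2 ∈ K := by
      intro t ht
      have := ha (a + t) ⟨by linarith [ht.1], by linarith [ht.2]⟩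
      simp only at this
      rwa [add_smul, ← add_assoc] at this
    constructor
    · intro i
      have h2 := hseg d _ h1 i
      have h3 : (p + a • dirE (z d).2 : E m) i.succ = p i.succ + a * (dirE (z d).2) i.succ := rfl
      have h4 : (p + a • dirE (z d).2 : E m) 0 = p 0 + a * (dirE (z d).2) 0 := rfl
      rw [h3, h4, dirE_succ] at h2
      linarith
    · have h2 := h1 0 ⟨le_rfl, zero_le_one⟩
      rw [zero_smul, add_zero] at h2
      have h3 := hR0 _ h2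
      have h4 : ‖p‖ ^ 2 ≤ ‖p + a • dirE (z d).2‖ ^ 2 := by
        rw [norm_add_sq_real, inner_smul_right, real_inner_comm, hin]
        have : 0 ≤ ‖a • dirE (z d).2‖ ^ 2 := by positivity
        linarith
      have h5 : ‖p‖ ≤ ‖p + a • dirE (z d).2‖ :=
        le_of_sq_le_sq h4 (norm_nonneg _)
      exact (h5.trans h3).trans (le_max_left _ _)
  -- Baire
  set Y : ℕ → Set X := fun i => {d | ∃ p, (dirE (z d).2, p) ∈ L ∧ (dirE (z d).2, p) ∈ P i} with hY
  have hcov : ⋃ i, closure (Y i) = univ := by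
    refine eq_univ_of_forall fun d => ?_
    obtain ⟨p, hp⟩ := hL2 (dirE (z d).2) (norm_dirE _)
    obtain ⟨i, hi⟩ := mem_iUnion.1 (hP hp)
    exact mem_iUnion.2 ⟨i, subset_closure ⟨p, hp, hi⟩⟩
  obtain ⟨i, hi⟩ := nonempty_interior_of_iUnion_of_closed (fun i => isClosed_closure) hcov
  obtain ⟨t, ht1, ht2⟩ := exists_between hs
  obtain ⟨δ₀, hδ₀, hcover⟩ := hbox i t ht1
  set C : ℝ := 2 * ((m : ℝ) + 1) * (R + 1) with hC
  have hC0 : 0 < C := by positivity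
  obtain ⟨δ, hδ, hδ1, N, W, hN, hWo, hWd⟩ :=
    hW (interior (closure (Y i))) isOpen_interior hi (2 * C + 1) t δ₀ (by positivity) ht2 hδ₀
  obtain ⟨G, hGc, hGP⟩ := hcover δ hδ hδ1
  have hpt : ∀ j, ∃ d ∈ W j, ∃ p, (dirE (z d).2, p) ∈ L ∧ (dirE (z d).2, p) ∈ P i := by
    intro j
    obtain ⟨ho, ⟨x, hx⟩, hsub⟩ := hWo j
    have hxc : x ∈ closure (Y i) := interior_subset (hsub hx)
    obtain ⟨y, hy1, hy2⟩ := mem_closure_iff.1 hxc (W j) ho hx
    exact ⟨y, hy1, hy2⟩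
  choose d hdW p hpL hpP using hpt
  have hball : ∀ j, ∃ g ∈ G, (dirE (z (d j)).2, p j) ∈ ball g δ := by
    intro j
    have := hGP (hpP j)
    simpa using this
  choose g hgG hg using hball
  have hcard : G.card < (Finset.univ : Finset (Fin N)).card := by
    rw [Finset.card_univ, Fintype.card_fin]
    exact_mod_cast hGc.trans_lt hN
  obtain ⟨j, -, k, -, hjk, hgjk⟩ :=
    Finset.exists_ne_map_eq_of_card_lt_of_maps_to hcard (fun j _ => hgG j)
  have hd2 : dist (dirE (z (d j)).2, p j) (dirE (z (d k)).2, p k) ≤ 2 * δ := by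
    have h1 := mem_ball.1 (hg j)
    have h2 := mem_ball.1 (hg k)
    rw [← hgjk] at h2
    linarith [dist_triangle_right (dirE (z (d j)).2, p j) (dirE (z (d k)).2, p k) (g j)]
  rw [Prod.dist_eq] at hd2
  have h1 : ‖dirE (z (d j)).2 - dirE (z (d k)).2‖ ≤ 2 * δ := by
    rw [← dist_eq_norm]; exact (le_max_left _ _).trans hd2
  have h2 : ‖p j - p k‖ ≤ 2 * δ := by
    rw [← dist_eq_norm]; exact (le_max_right _ _).trans hd2
  have h3 := lip R hR (z (d j)) (z (d k)) (hz _) (hz _) (p j) (p k) (hline _ _ (hpL j)).2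
    (hline _ _ (hpL j)).1 (hline _ _ (hpL k)).1 (2 * δ) h1 h2
  have h4 := hWd j k hjk (d j) (hdW j) (d k) (hdW k)
  rw [← hC] at h3
  nlinarith

end Pool.Agent.Y292.KS
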