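import Pool.Agent.Y292.KS.Stm

set_option autoImplicit false

/-!
# The special family of pairs (position, slope)
-/

namespace Pool.Agent.Y292.KS

open Set Metric Filter Topology

theorem Good.bd1 {m : ℕ} {T κ : ℝ} {A : ℕ → Finset (V m × V m)} {β r : ℕ → ℝ}
    (hG : Good m T κ A β r) (k : ℕ) (a : V m × V m) (ha : a ∈ A k) : ‖a.1‖ ≤ β k / 2 := by
  have h := (hG.box k a ha).1
  rw [pi_norm_le_iff_of_nonneg (by linarith [hG.pos k])]
  intro i
  rw [Real.norm_eq_abs, abs_of_nonneg (h i).1]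
  exact (h i).2

theorem Good.rho_le {m : ℕ} {T κ : ℝ} {A : ℕ → Finset (V m × V m)} {β r : ℕ → ℝ}
    (hG : Good m T κ A β r) (k : ℕ) : rho T (β k) ≤ β k / 32 := by
  unfold rho
  exact div_le_div_of_nonneg_left (hG.pos k).le (by norm_num) (by linarith [hG.hT])

theorem Good.bd {m : ℕ} {T κ : ℝ} {A : ℕ → Finset (V m × V m)} {β r : ℕ → ℝ}
    (hG : Good m T κ A β r) (k : ℕ) (a : V m × V m) (ha : a ∈ A k) : ‖a‖ ≤ β k / 2 := by
  rw [Prod.norm_def]
  refine max_le (hG.bd1 k a ha) (((hG.box k a ha).2).trans ?_)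
  linarith [hG.rho_le k, hG.pos k]

theorem Good.geo {m : ℕ} {T κ : ℝ} {A : ℕ → Finset (V m × V m)} {β r : ℕ → ℝ}
    (hG : Good m T κ A β r) (k l : ℕ) : β (l + k) ≤ β k * (1 / 64) ^ l := by
  induction l with
  | zero => simp
  | succ n ih =>
    have := hG.dec (n + k)
    rw [show n + 1 + k = n + k + 1 by ring, pow_succ]
    linarith

theorem Good.tail {m : ℕ} {T κ : ℝ} {A : ℕ → Finset (V m × V m)} {β r : ℕ → ℝ}
    (hG : Good m T κ A β r) (d : ℕ → V m × V m) (hd : ∀ k, d k ∈ A k) (k : ℕ) :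
    Summable (fun l => d (l + k)) ∧ ‖∑' l, d (l + k)‖ ≤ 64 / 63 * (β k / 2) := by
  have hs : HasSum (fun l : ℕ => (β k / 2) * (1 / 64 : ℝ) ^ l) ((β k / 2) * (1 - 1 / 64)⁻¹) :=
    (hasSum_geometric_of_lt_one (by norm_num) (by norm_num)).mul_left _
  have hb : ∀ l, ‖d (l + k)‖ ≤ (β k / 2) * (1 / 64 : ℝ) ^ l := by
    intro l
    refine (hG.bd _ _ (hd (l + k))).trans ?_
    linarith [hG.geo k l]
  refine ⟨Summable.of_norm_bounded hs.summable hb, ?_⟩
  refine (tsum_of_norm_bounded hs hb).trans (le_of_eq ?_)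
  norm_num
  ring

theorem Good.slope {m : ℕ} {T κ : ℝ} {A : ℕ → Finset (V m × V m)} {β r : ℕ → ℝ}
    (hG : Good m T κ A β r) (d : ℕ → V m × V m) (hd : ∀ k, d k ∈ A k) :
    ‖(∑' k, d k).2‖ ≤ 2 / 3 * rho T (β 0) := by
  have hsum : Summable d := (hG.tail d hd 0).1
  have h1 : (∑' k, d k).2 = ∑' k, (d k).2 := by
    have := (ContinuousLinearMap.snd ℝ (V m) (V m)).map_tsum hsum
    simpa using this
  have hs : HasSum (fun l : ℕ => (rho T (β 0) / 2) * (1 / 64 : ℝ) ^ l)
      ((rho T (β 0) / 2) * (1 - 1 / 64)⁻¹) :=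
    (hasSum_geometric_of_lt_one (by norm_num) (by norm_num)).mul_left _
  have hT : 0 < T := by linarith [hG.hT]
  have hb : ∀ l, ‖(d l).2‖ ≤ (rho T (β 0) / 2) * (1 / 64 : ℝ) ^ l := by
    intro l
    refine ((hG.box l _ (hd l)).2).trans ?_
    have h2 := hG.geo 0 l
    rw [add_zero] at h2
    have h3 : rho T (β l) ≤ rho T (β 0) * (1 / 64) ^ l := by
      unfold rho
      rw [div_mul_eq_mul_div]
      exact div_le_div_of_nonneg_right h2 (by positivity)
    linarith
  have hρ : 0 < rho T (β 0) := by unfold rho; have := hG.pos 0; positivity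
  rw [h1]
  refine (tsum_of_norm_bounded hs hb).trans ?_
  have : (1 - 1 / 64 : ℝ)⁻¹ = 64 / 63 := by norm_num
  rw [this]
  linarith

theorem t_WILD : S_WILD := by
  intro m T κ A β r hm hG
  refine ⟨hG.slope, ?_⟩
  intro U hU hUne c t δ₀ hc ht hδ₀
  obtain ⟨d0, hd0⟩ := hUne
  obtain ⟨I, u, hu, hIU⟩ := isOpen_pi_iff.1 hU d0 hd0
  set t' : ℝ := max t 0 with ht'
  have hm2 : (2 : ℝ) ≤ (m : ℝ) := by exact_mod_cast hm
  have ht1 : t' < 2 * (m : ℝ) := max_lt ht (by linarith)
  have ht0 : 0 ≤ t' := le_max_right _ _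
  set γ : ℝ := (2 * (m : ℝ) - t') / 2 with hγ
  have hγ0 : 0 < γ := by rw [hγ]; linarith
  have hr0 : Tendsto r atTop (𝓝 0) := by
    refine squeeze_zero (fun k => (hG.rpos k).le) hG.rle ?_
    exact tendsto_one_div_add_atTop_nhds_zero_nat
  have hrγ : Tendsto (fun k => (r k) ^ γ) atTop (𝓝 0) := by
    have := (Real.continuousAt_rpow_const 0 γ (Or.inr hγ0.le)).tendsto.comp hr0
    rwa [Real.zero_rpow hγ0.ne'] at this
  set Q : ℝ := (4 * c / 3) ^ t' with hQ
  have hQ0 : 0 < Q := by positivity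
  have e1 : ∀ᶠ k : ℕ in atTop, 1 / ((k : ℝ) + 1) < γ :=
    (tendsto_one_div_add_atTop_nhds_zero_nat (𝕜 := ℝ)).eventually_lt_const hγ0
  have e2 : ∀ᶠ k in atTop, (r k) ^ γ < 1 / Q := hrγ.eventually_lt_const (by positivity)
  have e3 : ∀ᶠ k in atTop, r k < min (min 1 (4 * c / 3)) (4 * c / 3 * δ₀) :=
    hr0.eventually_lt_const (by positivity)
  have e4 : ∀ᶠ k in atTop, I.sup id + 1 ≤ k := eventually_ge_atTop _
  obtain ⟨k, hk1, hk2, hk3, hk4⟩ := (e1.and (e2.and (e3.and e4))).exists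
  have hr := hG.rpos k
  have hk31 : r k < 1 := hk3.trans_le ((min_le_left _ _).trans (min_le_left _ _))
  have hk32 : r k < 4 * c / 3 := hk3.trans_le ((min_le_left _ _).trans (min_le_right _ _))
  have hk33 : r k < 4 * c / 3 * δ₀ := hk3.trans_le (min_le_right _ _)
  set δ : ℝ := r k / (4 * c / 3) with hδ
  have hc43 : 0 < 4 * c / 3 := by positivity
  have hδ0 : 0 < δ := by positivity
  have hδ1 : δ < 1 := by rw [hδ, div_lt_one hc43]; exact hk32
  refine ⟨δ, hδ0, ?_, (A k).card, fun i => {d | (∀ j < k, d j = d0 j) ∧ d k = (A k).equivFin.symm i},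
    ?_, ?_, ?_⟩
  · rw [hδ, div_lt_iff₀ hc43]; linarith
  · have h1 : δ ^ (-t) ≤ δ ^ (-t') :=
      Real.rpow_le_rpow_of_exponent_ge hδ0 hδ1.le (by simp [ht'])
    have h2 : δ ^ (-t') = Q * (r k) ^ (-t') := by
      rw [hδ, Real.div_rpow hr.le hc43.le, Real.rpow_neg hc43.le, div_inv_eq_mul, ← hQ, mul_comm]
    have h3 : (r k) ^ (-(t' + γ)) ≤ (r k) ^ (-(2 * (m : ℝ) - 1 / ((k : ℝ) + 1))) := by
      refine Real.rpow_le_rpow_of_exponent_ge hr hk31.le ?_
      have : 2 * (m : ℝ) - γ = t' + γ := by rw [hγ]; ring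
      linarith
    have h4 : Q * (r k) ^ (-t') < (r k) ^ (-(t' + γ)) := by
      have h5 : (r k) ^ (-(t' + γ)) = (r k) ^ (-t') * ((r k) ^ γ)⁻¹ := by
        rw [← Real.rpow_neg hr.le, ← Real.rpow_add hr]
        congr 1; ring
      rw [h5, mul_comm]
      refine mul_lt_mul_of_pos_left ?_ (Real.rpow_pos_of_pos hr _)
      have h6 : 0 < (r k) ^ γ := Real.rpow_pos_of_pos hr _
      rw [lt_inv_comm₀ hQ0 h6]
      rwa [one_div] at hk2
    calc δ ^ (-t) ≤ δ ^ (-t') := h1
      _ = Q * (r k) ^ (-t') := h2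
      _ < (r k) ^ (-(t' + γ)) := h4
      _ ≤ (r k) ^ (-(2 * (m : ℝ) - 1 / ((k : ℝ) + 1))) := h3
      _ ≤ ((A k).card : ℝ) := hG.count k
  · intro i
    refine ⟨?_, ?_, ?_⟩
    · have hck : Continuous fun d : (k : ℕ) → ↥(A k) => d k := continuous_apply k
      have h1 : IsOpen {d : (k : ℕ) → ↥(A k) | ∀ j ∈ Finset.range k, d j = d0 j} := by
        have : {d : (k : ℕ) → ↥(A k) | ∀ j ∈ Finset.range k, d j = d0 j} =
            ⋂ j ∈ Finset.range k, {d : (k : ℕ) → ↥(A k) | d j = d0 j} := by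
          ext d; simp
        rw [this]
        refine isOpen_biInter_finset fun j _ => ?_
        have hcj : Continuous fun d : (k : ℕ) → ↥(A k) => d j := continuous_apply j
        exact (isOpen_discrete ({d0 j} : Set ↥(A j))).preimage hcj
      have h2 : IsOpen {d : (k : ℕ) → ↥(A k) | d k = (A k).equivFin.symm i} :=
        (isOpen_discrete ({(A k).equivFin.symm i} : Set ↥(A k))).preimage hck
      convert h1.inter h2 using 1
      ext d
      simp
    · refine ⟨fun j => if h : j = k then h ▸ (A k).equivFin.symm i else d0 j, ?_, ?_⟩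
      · intro j hj
        simp [hj.ne]
      · simp
    · intro d hd
      refine hIU ?_
      intro j hj
      have hjk : j < k := by
        have : id j ≤ I.sup id := Finset.le_sup hj
        simp only [id] at this
        omega
      rw [hd.1 j hjk]
      exact (hu j hj).2
  · intro i j hij d hd d' hd'
    have hne : (d k : V m × V m) ≠ d' k := by
      intro h
      have : d k = d' k := Subtype.ext h
      rw [hd.2, hd'.2] at this
      exact hij ((A k).equivFin.symm.injective this)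
    have hsep := hG.rsep k (d k) (d k).2 (d' k) (d' k).2 hne
    have key : ∀ e : (k : ℕ) → ↥(A k), (∑' l, (e l : V m × V m)) =
        (∑ l ∈ Finset.range k, (e l : V m × V m)) + ((e k : V m × V m) +
          ∑' l, (e (l + (k + 1)) : V m × V m)) := by
      intro e
      have hs : Summable (fun l => (e l : V m × V m)) :=
        (hG.tail (fun l => (e l : V m × V m)) (fun l => (e l).2) 0).1
      have h1 := hs.sum_add_tsum_nat_add (k + 1)
      rw [Finset.sum_range_succ] at h1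
      rw [← h1, add_assoc]
    have t1 := (hG.tail (fun l => (d l : V m × V m)) (fun l => (d l).2) (k + 1)).2
    have t2 := (hG.tail (fun l => (d' l : V m × V m)) (fun l => (d' l).2) (k + 1)).2
    have hsame : ∑ l ∈ Finset.range k, (d l : V m × V m) =
        ∑ l ∈ Finset.range k, (d' l : V m × V m) := by
      refine Finset.sum_congr rfl fun l hl => ?_
      rw [hd.1 l (Finset.mem_range.1 hl), hd'.1 l (Finset.mem_range.1 hl)]
    simp only
    rw [key d, key d', hsame, dist_add_left, dist_eq_norm]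
    rw [dist_eq_norm] at hsep
    generalize (∑' l, (d (l + (k + 1)) : V m × V m)) = s1 at *
    generalize (∑' l, (d' (l + (k + 1)) : V m × V m)) = s2 at *
    generalize (d k : V m × V m) = a1 at *
    generalize (d' k : V m × V m) = a2 at *
    have h3 : ‖a1 - a2‖ ≤ ‖(a1 + s1) - (a2 + s2)‖ + (‖s1‖ + ‖s2‖) := by
      have h4 : a1 - a2 = ((a1 + s1) - (a2 + s2)) - (s1 - s2) := by abel
      calc ‖a1 - a2‖ = ‖((a1 + s1) - (a2 + s2)) - (s1 - s2)‖ := by rw [← h4]
        _ ≤ ‖(a1 + s1) - (a2 + s2)‖ + ‖s1 - s2‖ := norm_sub_le _ _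
        _ ≤ ‖(a1 + s1) - (a2 + s2)‖ + (‖s1‖ + ‖s2‖) := by linarith [norm_sub_le s1 s2]
    have hβ := hG.rbeta k
    have hcd : c * δ = 3 / 4 * r k := by
      rw [hδ]; field_simp
    rw [hcd]
    linarith

end Pool.Agent.Y292.KS
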