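import Mathlib

set_option autoImplicit false

/-!
# Kakeya sets which are as far from sticky as possible: definitions

Model of `ℝ^(m+1)`: pairs `(t, y)` with `t : ℝ`, `y : Fin m → ℝ` (supremum norms). The group of all
`z = (x, v)` acts by `tau z (t, y) = (t, y + x + t v)`.
-/

namespace Pool.Agent.Y292.KS

open Set Metric

/-- The space `ℝ^m` with the supremum norm. -/
abbrev V (m : ℕ) := Fin m → ℝ

/-- The model `ℝ × ℝ^m` of `ℝ^(m+1)` with the supremum norm. -/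
abbrev F (m : ℕ) := ℝ × (Fin m → ℝ)

/-- `ℝ^(m+1)` with the Euclidean norm. -/
abbrev E (m : ℕ) := EuclideanSpace ℝ (Fin (m + 1))

/-- Translation by `z.1` in the last coordinates after the shear with slope `z.2`. -/
def tau {m : ℕ} (z : V m × V m) (q : F m) : F m := (q.1, q.2 + z.1 + q.1 • z.2)

/-- The tube `|t| ≤ T`, `‖y‖ ≤ β`. -/
def Tube {m : ℕ} (T β : ℝ) : Set (F m) := {q | |q.1| ≤ T ∧ ‖q.2‖ ≤ β}

/-- The segment `{p + s (1, v) : 0 ≤ s ≤ κ}` lies in `S`. -/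
def SegIn {m : ℕ} (κ : ℝ) (v : V m) (p : F m) (S : Set (F m)) : Prop :=
  ∀ s ∈ Icc (0 : ℝ) κ, ((p.1 + s, p.2 + s • v) : F m) ∈ S

/-- The radius `β / (32 T)` of the ball of slopes belonging to a tube of radius `β`. -/
noncomputable def rho (T β : ℝ) : ℝ := β / (32 * T)

/-- The parameters of the construction: finite sets `A k` of pairs `(x, v)`, radii `β k`,
separations `r k`. -/
structure Good (m : ℕ) (T κ : ℝ) (A : ℕ → Finset (V m × V m)) (β r : ℕ → ℝ) : Prop where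
  hT : 1 ≤ T
  hk0 : 0 < κ
  hk1 : κ ≤ 1
  pos : ∀ k, 0 < β k
  one : β 0 ≤ 1
  dec : ∀ k, β (k + 1) ≤ β k / 64
  ne : ∀ k, (A k).Nonempty
  box : ∀ k, ∀ a ∈ A k, (∀ i, 0 ≤ a.1 i ∧ a.1 i ≤ β k / 2) ∧ ‖a.2‖ ≤ rho T (β k) / 2
  sep : ∀ k, ∀ a ∈ A k, ∀ b ∈ A k, a ≠ b → ∀ t : ℝ, |t| ≤ T →
    4 * β (k + 1) ≤ ‖a.1 - b.1 + t • (a.2 - b.2)‖
  sepv : ∀ k, ∀ a ∈ A k, ∀ b ∈ A k, a ≠ b → 8 * β (k + 1) ≤ κ * ‖a.2 - b.2‖
  rpos : ∀ k, 0 < r k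
  rle : ∀ k : ℕ, r k ≤ 1 / ((k : ℝ) + 1)
  rsep : ∀ k, ∀ a ∈ A k, ∀ b ∈ A k, a ≠ b → r k ≤ dist a b
  rbeta : ∀ k, 8 * β (k + 1) ≤ r k
  count : ∀ k : ℕ, (r k) ^ (-(2 * (m : ℝ) - 1 / ((k : ℝ) + 1))) ≤ ((A k).card : ℝ)
  small : ∀ k : ℕ, ((∏ i ∈ Finset.range (k + 1), (A i).card : ℕ) : ℝ) *
    (β (k + 1)) ^ ((1 : ℝ) / ((k : ℝ) + 1)) ≤ 1

/-- The family `z` of pairs (position, slope) has, near every point, for arbitrarily small `δ`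
more than `δ^(-t)` open pieces with mutual distances at least `c δ`, for all `t < 2m`. -/
def Wild {X : Type} [TopologicalSpace X] {m : ℕ} (z : X → V m × V m) : Prop :=
  ∀ U : Set X, IsOpen U → U.Nonempty → ∀ c t δ₀ : ℝ, 0 < c → t < 2 * (m : ℝ) → 0 < δ₀ →
    ∃ δ : ℝ, 0 < δ ∧ δ < δ₀ ∧ ∃ (N : ℕ) (W : Fin N → Set X), δ ^ (-t) < (N : ℝ) ∧
      (∀ i, IsOpen (W i) ∧ (W i).Nonempty ∧ W i ⊆ U) ∧
      ∀ i j, i ≠ j → ∀ d ∈ W i, ∀ d' ∈ W j, c * δ ≤ dist (z d) (z d')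

/-- The point of Euclidean space with coordinates `(t, y)`. -/
noncomputable def toE {m : ℕ} (q : F m) : E m :=
  WithLp.toLp 2 (Fin.cons q.1 q.2 : Fin (m + 1) → ℝ)

/-- The unit vector in the direction `(1, v)`. -/
noncomputable def dirE {m : ℕ} (v : V m) : E m := ‖toE ((1, v) : F m)‖⁻¹ • toE ((1, v) : F m)

/-- `K` contains a segment of length one in every direction. -/
def IsKak {n : ℕ} (K : Set (EuclideanSpace ℝ (Fin n))) : Prop :=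
  ∀ e : EuclideanSpace ℝ (Fin n), ‖e‖ = 1 →
    ∃ x : EuclideanSpace ℝ (Fin n), ∀ t ∈ Set.Icc (0 : ℝ) 1, x + t • e ∈ K

/-- `L` is a set of lines (given by a unit direction `q.1` and the foot `q.2` of the perpendicular
from the origin), one in each direction at least, each meeting `K` in a segment of length one. -/
def IsSel {n : ℕ} (K : Set (EuclideanSpace ℝ (Fin n)))
    (L : Set (EuclideanSpace ℝ (Fin n) × EuclideanSpace ℝ (Fin n))) : Prop :=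
  (∀ q ∈ L, ‖q.1‖ = 1 ∧ inner ℝ q.1 q.2 = (0 : ℝ) ∧
    ∃ a : ℝ, ∀ t ∈ Set.Icc a (a + 1), q.2 + t • q.1 ∈ K) ∧
  (∀ e : EuclideanSpace ℝ (Fin n), ‖e‖ = 1 → ∃ p : EuclideanSpace ℝ (Fin n), (e, p) ∈ L)

/-- `L` is a countable union of sets of upper box dimension at most `s`: packing dimension at
most `s`. -/
def PackLe {n : ℕ} (L : Set (EuclideanSpace ℝ (Fin n) × EuclideanSpace ℝ (Fin n))) (s : ℝ) : Prop :=
  ∃ P : ℕ → Set (EuclideanSpace ℝ (Fin n) × EuclideanSpace ℝ (Fin n)),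
    L ⊆ (⋃ i, P i) ∧
    ∀ i, ∀ t : ℝ, s < t → ∃ δ₀ : ℝ, 0 < δ₀ ∧ ∀ δ : ℝ, 0 < δ → δ < δ₀ →
      ∃ G : Finset (EuclideanSpace ℝ (Fin n) × EuclideanSpace ℝ (Fin n)),
        (G.card : ℝ) ≤ δ ^ (-t) ∧ P i ⊆ ⋃ x ∈ G, Metric.ball x δ

end Pool.Agent.Y292.KS
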