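import Pool.Agent.Y292.KS.Stm

set_option autoImplicit false

/-!
# Transfer to Euclidean space and assembly
-/

namespace Pool.Agent.Y292.KS

open Set Metric

/-- The linear isomorphism of Euclidean space with the model. -/
noncomputable def phiL (m : ℕ) : E m ≃ₗ[ℝ] F m where
  toFun x := (x 0, fun i => x i.succ)
  invFun q := toE q
  map_add' x y := by ext <;> simp
  map_smul' c x := by ext <;> simp
  left_inv x := by
    ext i
    refine Fin.cases ?_ ?_ i
    · simp [toE]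
    · intro j; simp [toE]
  right_inv q := by
    ext
    · simp [toE]
    · simp [toE]

/-- The same, as a continuous linear equivalence. -/
noncomputable def phi (m : ℕ) : E m ≃L[ℝ] F m := (phiL m).toContinuousLinearEquiv

theorem phi_apply {m : ℕ} (x : E m) : phi m x = (x 0, fun i => x i.succ) := rfl

theorem phi_symm {m : ℕ} (q : F m) : (phi m).symm q = toE q := rfl

theorem phi_toE {m : ℕ} (q : F m) : phi m (toE q) = q := (phi m).apply_symm_apply q

theorem toE_phi {m : ℕ} (x : E m) : toE (phi m x) = x := (phi m).symm_apply_apply x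

theorem toE_add {m : ℕ} (p q : F m) : toE (p + q) = toE p + toE q := map_add (phi m).symm p q

theorem toE_smul {m : ℕ} (c : ℝ) (q : F m) : toE (c • q) = c • toE q :=
  map_smul (phi m).symm c q

theorem norm_phi_le {m : ℕ} (x : E m) : ‖phi m x‖ ≤ ‖x‖ := by
  rw [phi_apply, Prod.norm_def]
  refine max_le (PiLp.norm_apply_le x 0) ?_
  rw [pi_norm_le_iff_of_nonneg (norm_nonneg _)]
  intro i
  exact PiLp.norm_apply_le x i.succ

theorem norm_toE_le {m : ℕ} (q : F m) : ‖toE q‖ ≤ (m + 1 : ℝ) * ‖q‖ := by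
  have h : ‖toE q‖ ≤ ∑ i, ‖(toE q) i‖ := by
    rw [EuclideanSpace.norm_eq]
    refine Real.sqrt_le_iff.2 ⟨Finset.sum_nonneg fun i _ => norm_nonneg _, ?_⟩
    exact Finset.sum_sq_le_sq_sum_of_nonneg fun i _ => norm_nonneg _
  refine h.trans ?_
  have : ∀ i : Fin (m + 1), ‖(toE q) i‖ ≤ ‖q‖ := by
    intro i
    refine Fin.cases ?_ ?_ i
    · simpa [toE] using norm_fst_le q
    · intro j
      simpa [toE] using (norm_le_pi_norm q.2 j).trans (norm_snd_le q)
  calc ∑ i, ‖(toE q) i‖ ≤ ∑ _i : Fin (m + 1), ‖q‖ := Finset.sum_le_sum fun i _ => this i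
    _ = (m + 1 : ℝ) * ‖q‖ := by simp


theorem toE_ne {m : ℕ} (v : V m) : toE ((1, v) : F m) ≠ 0 := by
  intro h
  have : phi m (toE ((1, v) : F m)) = 0 := by rw [h]; exact map_zero _
  rw [phi_toE] at this
  have := congrArg Prod.fst this
  simp at this

theorem norm_dirE {m : ℕ} (v : V m) : ‖dirE v‖ = 1 := by
  unfold dirE
  rw [norm_smul, norm_inv, norm_norm, inv_mul_cancel₀ (norm_ne_zero_iff.2 (toE_ne v))]

theorem smul_dirE {m : ℕ} (v : V m) (s : ℝ) :
    (s * ‖toE ((1, v) : F m)‖) • dirE v = toE ((s, s • v) : F m) := by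
  unfold dirE
  rw [smul_smul, mul_assoc, mul_inv_cancel₀ (norm_ne_zero_iff.2 (toE_ne v)), mul_one, ← toE_smul]
  simp

/-- From a segment of length one in Euclidean space to a segment of the model. -/
theorem seg_of_unit {m : ℕ} (S : Set (E m)) (v : V m) (hv : ‖v‖ ≤ 1) (x : E m)
    (h : ∀ t ∈ Icc (0 : ℝ) 1, x + t • dirE v ∈ S) :
    SegIn (1 / ((m : ℝ) + 1)) v (phi m x) (phi m '' S) := by
  intro s hs
  have hn : ‖toE ((1, v) : F m)‖ ≤ (m : ℝ) + 1 := by
    refine (norm_toE_le _).trans ?_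
    have : ‖((1, v) : F m)‖ ≤ 1 := by
      rw [Prod.norm_def]; exact max_le (by simp) hv
    nlinarith [norm_nonneg ((1, v) : F m), (Nat.cast_nonneg m : (0 : ℝ) ≤ (m : ℝ))]
  have hm : (0 : ℝ) < (m : ℝ) + 1 := by positivity
  have ht : s * ‖toE ((1, v) : F m)‖ ∈ Icc (0 : ℝ) 1 := by
    refine ⟨mul_nonneg hs.1 (norm_nonneg _), ?_⟩
    calc s * ‖toE ((1, v) : F m)‖ ≤ 1 / ((m : ℝ) + 1) * ((m : ℝ) + 1) :=
          mul_le_mul hs.2 hn (norm_nonneg _) (by positivity)
      _ = 1 := by field_simp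
  refine ⟨_, h _ ht, ?_⟩
  rw [smul_dirE, map_add, phi_toE]
  rfl

/-- From a segment of the model with `κ = 1` to a segment in Euclidean space in the direction of
`e` with `(phi e).2 = e 0 • v`, `|e 0| ≤ 1`. -/
theorem unit_of_seg {m : ℕ} (S : Set (F m)) (v : V m) (p : F m) (h : SegIn 1 v p S) (e : E m)
    (he : ‖e‖ = 1) (hev : (phi m e).2 = e 0 • v) :
    ∃ x : E m, ∀ t ∈ Icc (0 : ℝ) 1, x + t • e ∈ toE '' S := by
  have h0 : |e 0| ≤ 1 := by
    have := PiLp.norm_apply_le e 0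
    rwa [he, Real.norm_eq_abs] at this
  have h1 : ∀ t : ℝ, t • e = toE ((t * e 0, (t * e 0) • v) : F m) := by
    intro t
    apply (phi m).injective
    rw [phi_toE, map_smul]
    have : phi m e = (e 0, e 0 • v) := by
      rw [← hev]; rfl
    rw [this]
    ext
    · simp
    · simp [mul_assoc]
  rcases le_total 0 (e 0) with hp | hp
  · refine ⟨toE p, fun t ht => ?_⟩
    have hs : t * e 0 ∈ Icc (0 : ℝ) 1 := by
      rw [abs_of_nonneg hp] at h0
      exact ⟨mul_nonneg ht.1 hp, by nlinarith [ht.1, ht.2]⟩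
    refine ⟨_, h _ hs, ?_⟩
    rw [h1, ← toE_add]
    rfl
  · refine ⟨toE (p + (1, v)), fun t ht => ?_⟩
    have hs : 1 + t * e 0 ∈ Icc (0 : ℝ) 1 := by
      rw [abs_of_nonpos hp] at h0
      constructor
      · nlinarith [ht.1, ht.2]
      · nlinarith [ht.1, mul_nonneg ht.1 (neg_nonneg.2 hp)]
    refine ⟨_, h _ hs, ?_⟩
    rw [h1, ← toE_add]
    congr 1
    ext
    · simp; ring
    · simp; ring

theorem one_le_dimH {m : ℕ} (K : Set (E m)) (hK : IsKak K) : 1 ≤ dimH K := by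
  obtain ⟨x, hx⟩ := hK (dirE (0 : V m)) (norm_dirE _)
  have hiso : Isometry (fun t : ℝ => x + t • dirE (0 : V m)) := by
    refine Isometry.of_dist_eq fun s t => ?_
    rw [dist_add_left, dist_eq_norm, ← sub_smul, norm_smul, norm_dirE, mul_one, Real.dist_eq,
      Real.norm_eq_abs]
  have h1 : dimH (Icc (0 : ℝ) 1) = 1 := by
    rw [Real.dimH_of_nonempty_interior]
    · simp
    · rw [interior_Icc]; exact ⟨1 / 2, by norm_num, by norm_num⟩
  rw [← h1, ← hiso.dimH_image]
  exact dimH_mono (by rintro _ ⟨t, ht, rfl⟩; exact hx t ht)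

/-- A segment in a disjoint union of two closed sets. -/
theorem seg_split {m : ℕ} (K B : Set (E m)) (hK : IsClosed K) (hB : IsClosed B)
    (hKB : Disjoint K B) (x e : E m) (h : ∀ t ∈ Icc (0 : ℝ) 1, x + t • e ∈ K ∪ B) :
    (∀ t ∈ Icc (0 : ℝ) 1, x + t • e ∈ K) ∨ (∀ t ∈ Icc (0 : ℝ) 1, x + t • e ∈ B) := by
  have hc : IsPreconnected ((fun t : ℝ => x + t • e) '' Icc (0 : ℝ) 1) :=
    (isPreconnected_Icc).image _ (by fun_prop)
  rcases isPreconnected_iff_subset_of_disjoint_closed.1 hc K B hK hB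
    (by rintro _ ⟨t, ht, rfl⟩; exact h t ht)
    (by rw [hKB.inter_eq, inter_empty]) with h1 | h1
  · exact Or.inl fun t ht => h1 ⟨t, ht, rfl⟩
  · exact Or.inr fun t ht => h1 ⟨t, ht, rfl⟩

end Pool.Agent.Y292.KS
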