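import Pool.Agent.Y292.KS.Fin

set_option autoImplicit false

/-!
# Assembly of the main theorem from the parts
-/

namespace Pool.Agent.Y292.KS

open Set Metric

theorem t_MAIN (h1 : S_CH) (h2 : S_SEQ) (h3 : S_BUN) (h4 : S_SYS) (h5 : S_DIM) (h6 : S_UNI)
    (h7 : S_WILD) (h8 : S_BASE) (h9 : S_PACK) : S_MAIN := by
  intro m hm K hK hKak
  set κ : ℝ := 1 / ((m : ℝ) + 1) with hκ
  have hm1 : (0 : ℝ) < (m : ℝ) + 1 := by positivity
  have hκ0 : 0 < κ := by rw [hκ]; positivity
  have hκ1 : κ ≤ 1 := by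
    rw [hκ, div_le_one hm1]; linarith [(Nat.cast_nonneg m : (0 : ℝ) ≤ (m : ℝ))]
  obtain ⟨R, hR⟩ := hK.isBounded.exists_norm_le
  set T : ℝ := max 1 (R * ((m : ℝ) + 1)) with hT
  have hT1 : 1 ≤ T := le_max_left _ _
  have hRT : R ≤ κ * T := by
    have : R * ((m : ℝ) + 1) ≤ T := le_max_right _ _
    rw [hκ, one_div, inv_mul_eq_div, le_div_iff₀ hm1]
    exact this
  -- the model of K
  set KF : Set (F m) := phi m '' K with hKF
  have hKFc : IsCompact KF := hK.image (phi m).continuous
  have hKFt : KF ⊆ Tube (κ * T) (κ * T) := by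
    rintro _ ⟨x, hx, rfl⟩
    have hx1 := (norm_phi_le x).trans ((hR x hx).trans hRT)
    exact ⟨(norm_fst_le (phi m x)).trans hx1, (norm_snd_le (phi m x)).trans hx1⟩
  have hKFs : ∀ v : V m, ‖v‖ ≤ 1 → ∃ p, SegIn κ v p KF := by
    intro v hv
    obtain ⟨x, hx⟩ := hKak (dirE v) (norm_dirE v)
    exact ⟨_, seg_of_unit K v hv x hx⟩
  have hKFd : dimH KF = dimH K := (phi m).dimH_image K
  obtain ⟨A, β, r, hG⟩ := h2 h1 m hm T κ hT1 hκ0 hκ1
  have hβ1 : ∀ k, β k ≤ 1 := by
    intro k
    induction k with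
    | zero => exact hG.one
    | succ n ih => linarith [hG.dec n, hG.pos n]
  have hB : ∀ k, ∃ B : Set (F m), IsCompact B ∧ B ⊆ Tube T (β k) ∧ dimH B ≤ dimH KF ∧
      (∀ v : V m, ‖v‖ ≤ rho T (β k) → (∀ a ∈ A k, rho T (β (k + 1)) ≤ ‖v - a.2‖) →
        ∃ p, SegIn 1 v p B) ∧
      (∀ (Y : Set (F m)) (v : V m) (p : F m), Y ⊆ Tube T (β (k + 1)) →
        SegIn κ v p (B ∪ ⋃ a ∈ A k, tau a '' Y) →
        ∀ a ∈ A k, ‖v - a.2‖ ≤ 2 / 3 * rho T (β (k + 1)) → SegIn κ v p (tau a '' Y)) := by
    intro k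
    exact h3 m hm T κ KF hT1 hκ0 hκ1 hKFc hKFt hKFs (β k) (β (k + 1)) (A k) (hG.pos _) (hG.dec k)
      (hβ1 k) (hG.box k) (hG.sep k) (hG.sepv k)
  choose B hBc hBt hBd hBs hBu using hB
  have hrho : ∀ k, rho T (β k) ≤ β k / 32 := by
    intro k
    unfold rho
    exact div_le_div_of_nonneg_left (hG.pos k).le (by norm_num) (by linarith)
  have htau : ∀ k, ∀ a ∈ A k, tau a '' Tube T (β (k + 1)) ⊆ Tube T (β k) := by
    intro k a ha
    rintro _ ⟨q, ⟨hq1, hq2⟩, rfl⟩
    refine ⟨hq1, ?_⟩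
    obtain ⟨hx, hv⟩ := hG.box k a ha
    have hx' : ‖a.1‖ ≤ β k / 2 := by
      rw [pi_norm_le_iff_of_nonneg (by linarith [hG.pos k])]
      intro i
      rw [Real.norm_eq_abs, abs_of_nonneg (hx i).1]
      exact (hx i).2
    have hTv : |q.1| * ‖a.2‖ ≤ β k / 64 := by
      have h3 : |q.1| * ‖a.2‖ ≤ T * (rho T (β k) / 2) :=
        mul_le_mul hq1 hv (norm_nonneg _) (by linarith)
      have h4 : T * (rho T (β k) / 2) = β k / 64 := by
        unfold rho
        have : T ≠ 0 := by linarith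
        field_simp
        ring
      linarith
    have : ‖q.2 + a.1 + q.1 • a.2‖ ≤ ‖q.2‖ + ‖a.1‖ + |q.1| * ‖a.2‖ := by
      refine (norm_add_le _ _).trans ?_
      rw [norm_smul, Real.norm_eq_abs]
      linarith [norm_add_le q.2 a.1]
    show ‖q.2 + a.1 + q.1 • a.2‖ ≤ β k
    linarith [hG.dec k, hG.pos k]
  obtain ⟨X, hXc, hXt, hXe, hXs⟩ := h4 m T β A B hT1 hG.pos hBc hBt htau hBs
  have hD1 : (1 : ENNReal) ≤ dimH K := one_le_dimH K hKak
  have hXd : dimH (X 0) ≤ dimH K :=
    h5 m T κ A β r B X (dimH K) hG hXt hXe hD1 fun k => (hBd k).trans hKFd.le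
  have hρ : 0 < rho T (β 0) := by unfold rho; have := hG.pos 0; positivity
  -- directions
  set D : Set (E m) := {e | ‖e‖ = 1 ∧ rho T (β 0) * |e 0| ≤ ‖(phi m e).2‖} with hD
  set N : Set (E m) := {e | ‖e‖ = 1 ∧ ‖(phi m e).2‖ ≤ 2 / 3 * rho T (β 0) * |e 0|} with hN
  have hc0 : Continuous fun e : E m => e 0 := by fun_prop
  have hc1 : Continuous fun e : E m => (phi m e).2 := continuous_snd.comp (phi m).continuous
  have hDc : IsCompact D := by
    refine (isCompact_sphere (0 : E m) 1).of_isClosed_subset ?_ ?_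
    · exact (isClosed_eq continuous_norm continuous_const).inter
        (isClosed_le (continuous_const.mul hc0.abs) hc1.norm)
    · intro e he; simpa using he.1
  have hNc : IsCompact N := by
    refine (isCompact_sphere (0 : E m) 1).of_isClosed_subset ?_ ?_
    · exact (isClosed_eq continuous_norm continuous_const).inter
        (isClosed_le hc1.norm (continuous_const.mul hc0.abs))
    · intro e he; simpa using he.1
  have hdis : ∀ e ∈ N, e ∉ D ∧ -e ∉ D := by
    intro e he
    have key : ¬ rho T (β 0) * |e 0| ≤ ‖(phi m e).2‖ := by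
      intro h
      have h0 : |e 0| ≤ 0 := by
        by_contra h0
        push Not at h0
        nlinarith [he.2, mul_pos hρ h0]
      have h00 : e 0 = 0 := abs_eq_zero.1 (le_antisymm h0 (abs_nonneg _))
      have h2 : (phi m e).2 = 0 := by
        have := he.2
        rw [h00] at this
        simpa using this
      have h3 : phi m e = 0 := by
        rw [Prod.ext_iff]
        exact ⟨h00, h2⟩
      have h4 : e = 0 := by
        have := (phi m).map_eq_zero_iff.1 h3
        exact this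
      have := he.1
      rw [h4] at this
      simp at this
    refine ⟨fun h => key h.2, fun h => key ?_⟩
    have := h.2
    rw [map_neg] at this
    simpa using this
  obtain ⟨B0, hB0c, hB0d, hB0s, hB0n⟩ := h8 (m + 1) K hK hKak D N hDc hNc (fun e he => he.1)
    (fun e he => he.1) hdis
  -- the copy of X 0 in Euclidean space
  set K1 : Set (E m) := toE '' X 0 with hK1
  have hK1' : K1 = (phi m).symm '' X 0 := rfl
  have hK1c : IsCompact K1 := by rw [hK1']; exact (hXc 0).image (phi m).symm.continuous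
  have hK1d : dimH K1 ≤ dimH K := by
    rw [hK1', (phi m).symm.dimH_image]; exact hXd
  obtain ⟨R1, hR1⟩ := hK1c.isBounded.exists_norm_le
  obtain ⟨R2, hR2⟩ := hB0c.isBounded.exists_norm_le
  set w : E m := (|R1| + |R2| + 1) • dirE (0 : V m) with hw
  have hwn : ‖w‖ = |R1| + |R2| + 1 := by
    rw [hw, norm_smul, norm_dirE, mul_one, Real.norm_eq_abs, abs_of_nonneg (by positivity)]
  set B1 : Set (E m) := (fun x => x + w) '' B0 with hB1
  have hB1c : IsCompact B1 := hB0c.image (by fun_prop)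
  have hiso : Isometry (fun x : E m => x + w) := by
    refine Isometry.of_dist_eq fun s t => ?_
    rw [dist_add_right]
  have hB1d : dimH B1 ≤ dimH K := by rw [hB1, hiso.dimH_image]; exact hB0d
  have hdisj : Disjoint K1 B1 := by
    rw [Set.disjoint_left]
    rintro x hx1 ⟨y, hy, rfl⟩
    have h1 := hR1 _ hx1
    have h2 := hR2 _ hy
    have h3 : ‖w‖ ≤ ‖y + w‖ + ‖y‖ := by
      calc ‖w‖ = ‖(y + w) - y‖ := by congr 1; abel
        _ ≤ ‖y + w‖ + ‖y‖ := norm_sub_le _ _
    rw [hwn] at h3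
    have := le_abs_self R1
    have := le_abs_self R2
    change ‖y + w‖ ≤ R1 at h1
    linarith
  refine ⟨K1 ∪ B1, hK1c.union hB1c, ?_, ?_, ?_⟩
  · -- Kakeya
    intro e he
    by_cases heD : e ∈ D
    · obtain ⟨x, hx⟩ := hB0s e heD
      refine ⟨x + w, fun t ht => Or.inr ⟨x + t • e, hx t ht, ?_⟩⟩
      show x + t • e + w = x + w + t • e
      abel
    · have h1 : ‖(phi m e).2‖ < rho T (β 0) * |e 0| := by
        by_contra h
        exact heD ⟨he, not_lt.1 h⟩
      have he0 : e 0 ≠ 0 := by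
        intro h
        rw [h] at h1
        simp at h1
        exact absurd h1 (not_lt.2 (norm_nonneg _))
      set v : V m := (e 0)⁻¹ • (phi m e).2 with hv
      have hvn : ‖v‖ ≤ rho T (β 0) := by
        rw [hv, norm_smul, norm_inv, Real.norm_eq_abs, inv_mul_eq_div,
          div_le_iff₀ (abs_pos.2 he0)]
        exact h1.le
      obtain ⟨p, hp⟩ := hXs 0 v hvn
      obtain ⟨x, hx⟩ := unit_of_seg (X 0) v p hp e he (by
        rw [hv, smul_smul, mul_inv_cancel₀ he0, one_smul])
      exact ⟨x, fun t ht => Or.inl (hx t ht)⟩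
  · rw [dimH_union]; exact max_le hK1d hB1d
  · -- the lines
    have : ∀ k, Nonempty ↥(A k) := fun k => (hG.ne k).to_subtype
    obtain ⟨hz1, hz2⟩ := h7 m T κ A β r hm hG
    have hρ1 : 2 / 3 * rho T (β 0) ≤ 1 := by linarith [hrho 0, hG.one]
    refine h9 m ((k : ℕ) → ↥(A k)) (fun d => ∑' k, (d k : V m × V m)) (K1 ∪ B1)
      (hK1c.union hB1c) ?_ ?_ hz2
    · intro d
      exact (hz1 (fun k => (d k : V m × V m)) (fun k => (d k).2)).trans hρ1
    · intro d x hx i
      set z : V m × V m := ∑' k, (d k : V m × V m) with hz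
      have hzn : ‖z.2‖ ≤ 2 / 3 * rho T (β 0) :=
        hz1 (fun k => (d k : V m × V m)) (fun k => (d k).2)
      have hdN : dirE z.2 ∈ N := by
        refine ⟨norm_dirE _, ?_⟩
        have h1 : phi m (dirE z.2) = ‖toE ((1, z.2) : F m)‖⁻¹ • ((1, z.2) : F m) := by
          unfold dirE
          rw [map_smul, phi_toE]
        have h2 : (dirE z.2) 0 = ‖toE ((1, z.2) : F m)‖⁻¹ := by
          have : (dirE z.2) 0 = (phi m (dirE z.2)).1 := rfl
          rw [this, h1]
          simp
        rw [h2, h1]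
        show ‖‖toE ((1, z.2) : F m)‖⁻¹ • z.2‖ ≤ _
        rw [norm_smul, Real.norm_eq_abs]
        nlinarith [abs_nonneg (‖toE ((1, z.2) : F m)‖⁻¹), hzn]
      rcases seg_split K1 B1 hK1c.isClosed hB1c.isClosed hdisj x _ hx with h | h
      · have hseg := seg_of_unit K1 z.2 (hzn.trans hρ1) x h
        have himg : phi m '' K1 = X 0 := by
          rw [hK1', ← Set.image_comp]
          simp
        rw [himg] at hseg
        have := h6 m T κ A β r B X hG hXt hXe hBu (fun k => (d k : V m × V m))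
          (fun k => (d k).2) (phi m x) hseg
        have h3 := congrFun this i
        simpa [phi_apply] using h3
      · exfalso
        refine hB0n _ hdN (x - w) fun t ht => ?_
        obtain ⟨y, hy, hyx⟩ := h t ht
        have : x - w + t • dirE z.2 = y := by
          have : y = x + t • dirE z.2 - w := by rw [← hyx]; simp
          rw [this]; abel
        rw [this]; exact hy

end Pool.Agent.Y292.KS
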