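import Pool.Agent.Y292.KS.Stm

set_option autoImplicit false

/-!
# Existence of the parameters
-/

namespace Pool.Agent.Y292.KS

open Set Metric

/-- One step of the recursion. -/
theorem seq_step (h : S_CH) (m : ℕ) (hm : 2 ≤ m) (T κ : ℝ) (hT : 1 ≤ T) (hκ : 0 < κ)
    (k : ℕ) (β : ℝ) (M : ℕ) (hβ : 0 < β) (hβ1 : β ≤ 1) :
    ∃ (A : Finset (V m × V m)) (r β' : ℝ), 0 < β' ∧ β' ≤ 1 ∧ β' ≤ β / 64 ∧ A.Nonempty ∧
      (∀ a ∈ A, (∀ i, 0 ≤ a.1 i ∧ a.1 i ≤ β / 2) ∧ ‖a.2‖ ≤ rho T β / 2) ∧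
      (∀ a ∈ A, ∀ b ∈ A, a ≠ b → ∀ t : ℝ, |t| ≤ T → 4 * β' ≤ ‖a.1 - b.1 + t • (a.2 - b.2)‖) ∧
      (∀ a ∈ A, ∀ b ∈ A, a ≠ b → 8 * β' ≤ κ * ‖a.2 - b.2‖) ∧
      0 < r ∧ r ≤ 1 / ((k : ℝ) + 1) ∧
      (∀ a ∈ A, ∀ b ∈ A, a ≠ b → r ≤ dist a b) ∧ 8 * β' ≤ r ∧
      r ^ (-(2 * (m : ℝ) - 1 / ((k : ℝ) + 1))) ≤ (A.card : ℝ) ∧
      ((M * A.card : ℕ) : ℝ) * β' ^ ((1 : ℝ) / ((k : ℝ) + 1)) ≤ 1 := by
  have hk : (0 : ℝ) < (k : ℝ) + 1 := by positivity
  obtain ⟨A, r, δ, hr, hrle, hδ, hne, hbox, hsep, hsepv, hdist, hcount⟩ :=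
    h m hm T β (1 / ((k : ℝ) + 1)) hT hβ hβ1 (by positivity)
  set Q : ℝ := ((M * A.card + 1 : ℕ) : ℝ) with hQ
  have hQ1 : 1 ≤ Q := by
    rw [hQ]; exact_mod_cast Nat.le_add_left 1 _
  have hQ0 : 0 < Q := by linarith
  set c : ℝ := (1 / Q) ^ (k + 1) with hc
  have hc0 : 0 < c := by positivity
  have hc1 : c ≤ 1 := pow_le_one₀ (by positivity) (by rw [div_le_one hQ0]; exact hQ1)
  set β' : ℝ := min (min (β / 64) (δ / 4)) (min (min (κ * δ / 8) (r / 8)) c) with hβ'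
  have h0 : 0 < β' := by
    rw [hβ']
    refine lt_min (lt_min (by positivity) (by positivity)) (lt_min (lt_min (by positivity) (by positivity)) hc0)
  have h1 : β' ≤ β / 64 := (min_le_left _ _).trans (min_le_left _ _)
  have h2 : β' ≤ δ / 4 := (min_le_left _ _).trans (min_le_right _ _)
  have h3 : β' ≤ κ * δ / 8 := (min_le_right _ _).trans ((min_le_left _ _).trans (min_le_left _ _))
  have h4 : β' ≤ r / 8 := (min_le_right _ _).trans ((min_le_left _ _).trans (min_le_right _ _))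
  have h5 : β' ≤ c := (min_le_right _ _).trans (min_le_right _ _)
  refine ⟨A, r, β', h0, by linarith, h1, hne, hbox, ?_, ?_, hr, hrle, hdist, by linarith, hcount, ?_⟩
  · intro a ha b hb hab t ht
    have := hsep a ha b hb hab t ht
    linarith
  · intro a ha b hb hab
    have := hsepv a ha b hb hab
    nlinarith
  · have h6 : β' ^ ((1 : ℝ) / ((k : ℝ) + 1)) ≤ 1 / Q := by
      have h7 : β' ^ ((1 : ℝ) / ((k : ℝ) + 1)) ≤ c ^ ((1 : ℝ) / ((k : ℝ) + 1)) :=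
        Real.rpow_le_rpow h0.le h5 (by positivity)
      refine h7.trans (le_of_eq ?_)
      rw [hc, ← Real.rpow_natCast, ← Real.rpow_mul (by positivity)]
      have : ((k + 1 : ℕ) : ℝ) * (1 / ((k : ℝ) + 1)) = 1 := by
        push_cast
        field_simp
      rw [this, Real.rpow_one]
    have h8 : ((M * A.card : ℕ) : ℝ) ≤ Q := by
      rw [hQ]; exact_mod_cast Nat.le_add_right _ _
    calc ((M * A.card : ℕ) : ℝ) * β' ^ ((1 : ℝ) / ((k : ℝ) + 1)) ≤ Q * (1 / Q) :=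
          mul_le_mul h8 h6 (by positivity) hQ0.le
      _ = 1 := by field_simp

theorem t_SEQ : S_SEQ := by
  intro h m hm T κ hT hκ hκ1
  have step := seq_step h m hm T κ hT hκ
  choose! fA fr fβ hst using step
  -- state: (β, M)
  let st : ℕ → ℝ × ℕ := fun n => Nat.rec ((1 : ℝ), (1 : ℕ))
    (fun k s => (fβ k s.1 s.2, s.2 * (fA k s.1 s.2).card)) n
  have st0 : st 0 = (1, 1) := rfl
  have stS : ∀ k, st (k + 1) = (fβ k (st k).1 (st k).2, (st k).2 * (fA k (st k).1 (st k).2).card) :=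
    fun k => rfl
  have hpos : ∀ k, 0 < (st k).1 ∧ (st k).1 ≤ 1 := by
    intro k
    induction k with
    | zero => simp [st0]
    | succ n ih =>
      have := hst n (st n).1 (st n).2 ih.1 ih.2
      rw [stS]
      exact ⟨this.1, this.2.1⟩
  have hS := fun k => hst k (st k).1 (st k).2 (hpos k).1 (hpos k).2
  have hprod : ∀ k, (st k).2 = ∏ i ∈ Finset.range k, (fA i (st i).1 (st i).2).card := by
    intro k
    induction k with
    | zero => simp [st0]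
    | succ n ih => rw [Finset.prod_range_succ, ← ih, stS]
  refine ⟨fun k => fA k (st k).1 (st k).2, fun k => (st k).1, fun k => fr k (st k).1 (st k).2, ?_⟩
  exact {
    hT := hT
    hk0 := hκ
    hk1 := hκ1
    pos := fun k => (hpos k).1
    one := by simp [st0]
    dec := fun k => (hS k).2.2.1
    ne := fun k => (hS k).2.2.2.1
    box := fun k => (hS k).2.2.2.2.1
    sep := fun k => (hS k).2.2.2.2.2.1
    sepv := fun k => (hS k).2.2.2.2.2.2.1
    rpos := fun k => (hS k).2.2.2.2.2.2.2.1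
    rle := fun k => (hS k).2.2.2.2.2.2.2.2.1
    rsep := fun k => (hS k).2.2.2.2.2.2.2.2.2.1
    rbeta := fun k => (hS k).2.2.2.2.2.2.2.2.2.2.1
    count := fun k => (hS k).2.2.2.2.2.2.2.2.2.2.2.1
    small := fun k => by
      have := (hS k).2.2.2.2.2.2.2.2.2.2.2.2
      rw [Finset.prod_range_succ, ← hprod]
      exact this }

end Pool.Agent.Y292.KS
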