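import Pool.Agent.Y292.KS.Defs

set_option autoImplicit false

/-!
# Kakeya sets which are as far from sticky as possible: statements of the parts
-/

namespace Pool.Agent.Y292.KS

open Set Metric

/-- Children of a cell. -/
def S_CH : Prop := ∀ (m : ℕ), 2 ≤ m → ∀ (T β ε : ℝ), 1 ≤ T → 0 < β → β ≤ 1 → 0 < ε →
  ∃ (A : Finset (V m × V m)) (r δ : ℝ), 0 < r ∧ r ≤ ε ∧ 0 < δ ∧ A.Nonempty ∧
    (∀ a ∈ A, (∀ i, 0 ≤ a.1 i ∧ a.1 i ≤ β / 2) ∧ ‖a.2‖ ≤ rho T β / 2) ∧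
    (∀ a ∈ A, ∀ b ∈ A, a ≠ b → ∀ t : ℝ, |t| ≤ T → δ ≤ ‖a.1 - b.1 + t • (a.2 - b.2)‖) ∧
    (∀ a ∈ A, ∀ b ∈ A, a ≠ b → δ ≤ ‖a.2 - b.2‖) ∧
    (∀ a ∈ A, ∀ b ∈ A, a ≠ b → r ≤ dist a b) ∧
    r ^ (-(2 * (m : ℝ) - ε)) ≤ (A.card : ℝ)

/-- Existence of the parameters. -/
def S_SEQ : Prop := S_CH → ∀ (m : ℕ), 2 ≤ m → ∀ (T κ : ℝ), 1 ≤ T → 0 < κ → κ ≤ 1 →
  ∃ (A : ℕ → Finset (V m × V m)) (β r : ℕ → ℝ), Good m T κ A β r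

/-- The finite union of thin copies of `K` belonging to one cell. -/
def S_BUN : Prop := ∀ (m : ℕ), 2 ≤ m → ∀ (T κ : ℝ) (K : Set (F m)), 1 ≤ T → 0 < κ → κ ≤ 1 →
  IsCompact K → K ⊆ Tube (κ * T) (κ * T) → (∀ v : V m, ‖v‖ ≤ 1 → ∃ p, SegIn κ v p K) →
  ∀ (β β' : ℝ) (A : Finset (V m × V m)), 0 < β' → β' ≤ β / 64 → β ≤ 1 →
  (∀ a ∈ A, (∀ i, 0 ≤ a.1 i ∧ a.1 i ≤ β / 2) ∧ ‖a.2‖ ≤ rho T β / 2) →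
  (∀ a ∈ A, ∀ b ∈ A, a ≠ b → ∀ t : ℝ, |t| ≤ T → 4 * β' ≤ ‖a.1 - b.1 + t • (a.2 - b.2)‖) →
  (∀ a ∈ A, ∀ b ∈ A, a ≠ b → 8 * β' ≤ κ * ‖a.2 - b.2‖) →
  ∃ B : Set (F m), IsCompact B ∧ B ⊆ Tube T β ∧ dimH B ≤ dimH K ∧
    (∀ v : V m, ‖v‖ ≤ rho T β → (∀ a ∈ A, rho T β' ≤ ‖v - a.2‖) → ∃ p, SegIn 1 v p B) ∧
    (∀ (Y : Set (F m)) (v : V m) (p : F m), Y ⊆ Tube T β' →
      SegIn κ v p (B ∪ ⋃ a ∈ A, tau a '' Y) →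
      ∀ a ∈ A, ‖v - a.2‖ ≤ 2 / 3 * rho T β' → SegIn κ v p (tau a '' Y))

/-- The compact sets with `X k = B k ∪ ⋃ tau a (X (k+1))`. -/
def S_SYS : Prop := ∀ (m : ℕ) (T : ℝ) (β : ℕ → ℝ) (A : ℕ → Finset (V m × V m))
  (B : ℕ → Set (F m)), 1 ≤ T → (∀ k, 0 < β k) →
  (∀ k, IsCompact (B k)) → (∀ k, B k ⊆ Tube T (β k)) →
  (∀ k, ∀ a ∈ A k, tau a '' Tube T (β (k + 1)) ⊆ Tube T (β k)) →
  (∀ k, ∀ v : V m, ‖v‖ ≤ rho T (β k) → (∀ a ∈ A k, rho T (β (k + 1)) ≤ ‖v - a.2‖) →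
    ∃ p, SegIn 1 v p (B k)) →
  ∃ X : ℕ → Set (F m), (∀ k, IsCompact (X k)) ∧ (∀ k, X k ⊆ Tube T (β k)) ∧
    (∀ k, X k = B k ∪ ⋃ a ∈ A k, tau a '' X (k + 1)) ∧
    (∀ k, ∀ v : V m, ‖v‖ ≤ rho T (β k) → ∃ p, SegIn 1 v p (X k))

/-- Hausdorff dimension. -/
def S_DIM : Prop := ∀ (m : ℕ) (T κ : ℝ) (A : ℕ → Finset (V m × V m)) (β r : ℕ → ℝ)
  (B X : ℕ → Set (F m)) (D : ENNReal), Good m T κ A β r →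
  (∀ k, X k ⊆ Tube T (β k)) → (∀ k, X k = B k ∪ ⋃ a ∈ A k, tau a '' X (k + 1)) →
  1 ≤ D → (∀ k, dimH (B k) ≤ D) → dimH (X 0) ≤ D

/-- Uniqueness of the segments with the special slopes. -/
def S_UNI : Prop := ∀ (m : ℕ) (T κ : ℝ) (A : ℕ → Finset (V m × V m)) (β r : ℕ → ℝ)
  (B X : ℕ → Set (F m)), Good m T κ A β r →
  (∀ k, X k ⊆ Tube T (β k)) → (∀ k, X k = B k ∪ ⋃ a ∈ A k, tau a '' X (k + 1)) →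
  (∀ (k : ℕ) (Y : Set (F m)) (v : V m) (p : F m), Y ⊆ Tube T (β (k + 1)) →
      SegIn κ v p (B k ∪ ⋃ a ∈ A k, tau a '' Y) →
      ∀ a ∈ A k, ‖v - a.2‖ ≤ 2 / 3 * rho T (β (k + 1)) → SegIn κ v p (tau a '' Y)) →
  ∀ d : ℕ → V m × V m, (∀ k, d k ∈ A k) → ∀ p : F m, SegIn κ (∑' k, d k).2 p (X 0) →
    p.2 = (∑' k, d k).1 + p.1 • (∑' k, d k).2

/-- The special family of pairs (position, slope). -/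
def S_WILD : Prop := ∀ (m : ℕ) (T κ : ℝ) (A : ℕ → Finset (V m × V m)) (β r : ℕ → ℝ), 2 ≤ m →
  Good m T κ A β r →
  (∀ d : ℕ → V m × V m, (∀ k, d k ∈ A k) → ‖(∑' k, d k).2‖ ≤ 2 / 3 * rho T (β 0)) ∧
  Wild (fun d : (k : ℕ) → ↥(A k) => ∑' k, (d k : V m × V m))

/-- A compact set with unit segments in all directions of `D` and in no direction of `N`. -/
def S_BASE : Prop := ∀ (n : ℕ) (K : Set (EuclideanSpace ℝ (Fin n))), IsCompact K → IsKak K →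
  ∀ D N : Set (EuclideanSpace ℝ (Fin n)), IsCompact D → IsCompact N →
    (∀ e ∈ D, ‖e‖ = 1) → (∀ e ∈ N, ‖e‖ = 1) → (∀ e ∈ N, e ∉ D ∧ -e ∉ D) →
    ∃ B : Set (EuclideanSpace ℝ (Fin n)), IsCompact B ∧ dimH B ≤ dimH K ∧
      (∀ e ∈ D, ∃ x, ∀ t ∈ Icc (0 : ℝ) 1, x + t • e ∈ B) ∧
      (∀ e ∈ N, ∀ x, ¬ ∀ t ∈ Icc (0 : ℝ) 1, x + t • e ∈ B)

/-- Lower bound for the packing dimension. -/
def S_PACK : Prop := ∀ (m : ℕ) (X : Type) [TopologicalSpace X] [BaireSpace X] [Nonempty X]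
  (z : X → V m × V m) (K : Set (E m)), IsCompact K → (∀ d, ‖(z d).2‖ ≤ 1) →
  (∀ (d : X) (x : E m), (∀ t ∈ Icc (0 : ℝ) 1, x + t • dirE (z d).2 ∈ K) →
    ∀ i : Fin m, x i.succ = (z d).1 i + x 0 * (z d).2 i) →
  Wild z → ∀ L : Set (E m × E m), IsSel K L → ∀ s : ℝ, s < 2 * (m : ℝ) → ¬ PackLe L s

/-- The main theorem. -/
def S_MAIN : Prop := ∀ (m : ℕ), 2 ≤ m → ∀ K : Set (E m), IsCompact K → IsKak K →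
  ∃ K' : Set (E m), IsCompact K' ∧ IsKak K' ∧ dimH K' ≤ dimH K ∧
    ∀ L : Set (E m × E m), IsSel K' L → ∀ s : ℝ, s < 2 * (m : ℝ) → ¬ PackLe L s

end Pool.Agent.Y292.KS
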